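import Mathlib
import Pool.Agent.U798.BV.Spec

/-!
# Project GQ (helper798), very famous problem MP_96e181_an (Furstenberg's conjecture for ALL p, q)

Target: the theorem of project BV (one integral decides the conjecture, every function of bounded variation or
with an absolutely convergent Fourier series is trivial or decisive) for ALL integers `p, q ≥ 2`.
New: the classes of integers modulo the group generated by `p, q`, separated by power residues
(Chevalley's theorem, from Chebotarev's theorem in the library).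

Proof of package `XX`: file `Pool/Agent/U<nr>/GP/XX.lean`, `theorem t_XX : Pool.Agent.U798.GP.S_XX`.
-/

set_option autoImplicit false

open MeasureTheory Filter Topology
open Pool.Agent.U798.BV

namespace Pool.Agent.U798.GP

/-- positive integers all whose prime factors divide `B` -/
def Sm (B : ℕ) : Set ℕ := {s | 1 ≤ s ∧ ∀ l : ℕ, l.Prime → l ∣ s → l ∣ B}

/-- `m` and `n` differ by an element of the group generated by `p, q` -/
def Cl (p q : ℕ) (m n : ℤ) : Prop :=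
  ∃ a b c d : ℕ, m * (p : ℤ) ^ a * (q : ℤ) ^ b = n * (p : ℤ) ^ c * (q : ℤ) ^ d

/-- atomless probability measures invariant under `×p, ×q` -/
def Inv (p q : ℕ) (μ : Measure (AddCircle (1 : ℝ))) : Prop :=
  IsProbabilityMeasure μ ∧ (∀ x, μ {x} = 0) ∧
    MeasurePreserving (fun x : AddCircle (1 : ℝ) => p • x) μ μ ∧
    MeasurePreserving (fun x : AddCircle (1 : ℝ) => q • x) μ μ

/-- Fourier coefficients of `μ` -/
noncomputable def hc (μ : Measure (AddCircle (1 : ℝ))) (n : ℤ) : ℂ := ∫ x, (fourier n x : ℂ) ∂μ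

/-- **ALG**. Finitely generated abelian groups are residually finite.
Hint: the quotient of `Fin n → ℤ` by the closure of `{x, y}` is a finitely generated abelian group, the class of
`z` is not zero; `AddCommGroup.equiv_free_prod_directSum_zmod`: project to a coordinate where it is not
zero, and for a free coordinate `k ≠ 0` reduce modulo `M = |k| + 1`; `v i` = image of the `i`-th unit vector. -/
def S_ALG : Prop := ∀ (n : ℕ) (x y z : Fin n → ℤ), z ∉ AddSubgroup.closure {x, y} →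
  ∃ (M : ℕ) (v : Fin n → ZMod M), M ≠ 0 ∧ ∑ i, (x i : ZMod M) * v i = 0 ∧
    ∑ i, (y i : ZMod M) * v i = 0 ∧ ∑ i, (z i : ZMod M) * v i ≠ 0

/-- **KUM**. Primes with prescribed power residue symbols of all the small primes.
Hint: this is in the proof of `good2` in `Pool/Agent/H552Res/K6.lean`: take `σ` from `surj2` with the given `v`
(`Ix X` = primes up to `X`), a prime `r > max X ..` with a Frobenius `φ` (`infinite_frob`), `m = (r - 1) / (2 M)`.
`φ` maps the primitive `M`-th root `η` to a primitive `M`-th root of the algebraic closure of `ZMod r`,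
fixed by the Frobenius, hence the image of some `z : ZMod r`; the relation `φ (σ x) = φ x ^ r` for the
integral element `α_l`, `α_l ^ (2 M) = l`, gives `φ(α_l)^(r - 1) = φ(η)^(v l)`, that is `l ^ m = z ^ (v l)`
(compare `frobK` in `K4.lean`). -/
def S_KUM : Prop := ∀ (X M : ℕ), M ≠ 0 → ∀ v : ℕ → ZMod M,
  ∃ (r m : ℕ) (z : ZMod r), r.Prime ∧ X < r ∧ 1 ≤ m ∧ orderOf z = M ∧
    ∀ l : ℕ, l.Prime → l ≤ X → (l : ZMod r) ^ m = z ^ (v l).val

/-- **CHEV** (assume ALG and KUM). Chevalley's theorem for `⟨p, q⟩`.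
Hint: exponent vectors `x, y, z` of `p`, `q`, `s / t` over the primes dividing `p q` (number them by `Fin n`);
`z` in the closure of `{x, y}` would mean `s / t = p^i q^j` with integers `i, j`, that is `Cl p q s t`
(`Nat.factorization` determines the number). ALG gives `M, v`, KUM with `X = p q` gives `r, m`; then
`p^m = z^(∑ x_i v_i) = 1`, the same for `q`, and `s^m ≠ t^m` since `z` has order `M`. -/
def S_CHEV : Prop := ∀ p q : ℕ, 2 ≤ p → 2 ≤ q → ∀ s ∈ Sm (p * q), ∀ t ∈ Sm (p * q),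
  ¬ Cl p q s t → ∃ r m : ℕ, r.Prime ∧ ¬ r ∣ p * q ∧ 1 ≤ m ∧ (p : ZMod r) ^ m = 1 ∧
    (q : ZMod r) ^ m = 1 ∧ (s : ZMod r) ^ m ≠ (t : ZMod r) ^ m

/-- **ODD**. Hint: a prime `r = -1` modulo `8 p q` (Dirichlet), `m = (r - 1) / 2`, Euler's criterion and
quadratic reciprocity: all primes `l ∣ p q` are squares modulo `r` (the proof is contained in
`Pool/Agent/U491/BV/ORB.lean`). -/
def S_ODD : Prop := ∀ p q : ℕ, 2 ≤ p → 2 ≤ q → ∃ r m : ℕ, r.Prime ∧ ¬ r ∣ p * q ∧ 2 < r ∧ Odd m ∧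
  ∀ s ∈ Sm (p * q), (s : ZMod r) ^ m = 1

/-- **TW**. One twist.
Hint: `H = {g : ZMod r | g ^ m = 1}`, a finite set closed under multiplication by `p` and `q`; `ν a` = convolution of
`μ` with the uniform measure on the points `(g a).val / r`, `g ∈ H` (`t_CONV` in `Pool/Agent/U141/BV/CONV.lean`
with `Fin n` ≃ `H`); `u_a(k) = (1 / #H) ∑_{g ∈ H} e(g a k / r)`, `w a = (1 / r) ∑_x φ(x) e(- a x / r)`;
`∑_a w(a) e(a k / r) = φ(k)`, and `∑_a w(a) e(g a k / r) = φ(g k) = φ(k)`. -/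
def S_TW : Prop := ∀ p q r m : ℕ, r.Prime → 1 ≤ m → (p : ZMod r) ^ m = 1 → (q : ZMod r) ^ m = 1 →
  ∀ φ : ZMod r → ℂ, (∀ g x : ZMod r, g ^ m = 1 → φ (g * x) = φ x) →
    ∃ w : Fin r → ℂ, ∀ μ : Measure (AddCircle (1 : ℝ)), Inv p q μ →
      ∃ ν : Fin r → Measure (AddCircle (1 : ℝ)), (∀ a, Inv p q (ν a)) ∧
        ∀ k : ℤ, ∑ a, w a * hc (ν a) k = φ (k : ZMod r) * hc μ k

/-- **TWL** (assume CHEV, ODD, TW). Separation of the classes.
Hint: a relation `∑_s (b s h(s) + b' s h(-s)) = 0` for all invariant `μ` may be multiplied with the weights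
`φ(n) = [n ^ m = t ^ m in ZMod r]` (finite combination of the relations for `ν a`, TW), for `r, m` from ODD
(kills all `-s`, since `(-s)^m = -1`, keeps all `s`) and for finitely many `r, m` from CHEV (kills any given finite
set of `s` with `¬ Cl p q s t`, keeps all `s` with `Cl p q s t`, because `p^m = q^m = 1`). By induction on a
finite set `F` of such `s`: `∑_s b s Φ_F(s) h(s) = 0` with `Φ_F(s) ∈ {0, 1}`, `Φ_F = 1` on the class of `t`, `0` on
`F`. Limit over finite sets `F` by dominated convergence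
(`tendsto_tsum_of_dominated_convergence`, or directly `|..| ≤` tail of `∑ |b s|`, `|h| ≤ 1`). -/
def S_TWL : Prop := ∀ p q : ℕ, 2 ≤ p → 2 ≤ q → ∀ b b' : ℕ → ℂ,
  Summable (fun s : Sm (p * q) => b s) → Summable (fun s : Sm (p * q) => b' s) →
  (∀ μ, Inv p q μ → ∑' s : Sm (p * q), (b s * hc μ ((s : ℕ) : ℤ) + b' s * hc μ (-((s : ℕ) : ℤ))) = 0) →
  ∀ t ∈ Sm (p * q), ∀ μ, Inv p q μ →
    ∑' s : Sm (p * q), Set.indicator {n : ℕ | Cl p q n t} (fun n => b n * hc μ (n : ℤ)) (s : ℕ) = 0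

/-- **SMS**. Hint: `Nat.factoredNumbers`, `EulerProduct.summable_and_hasSum_factoredNumbers_prod_filter_prime_tsum`
or the like, with `f n = 1 / n`; or induction on the set of primes. -/
def S_SMS : Prop := ∀ B : ℕ, 1 ≤ B → Summable fun s : Sm B => (1 : ℝ) / ((s : ℕ) : ℝ)

/-- **RESM** The measure `∑_{s ∈ E} (1 / s) (×s)_* θ`.
Hint: adapt `Pool/Agent/U338/BV/TIL.lean`. -/
def S_RESM : Prop := ∀ E : Set ℕ, (∀ s ∈ E, 1 ≤ s) → (Summable fun s : E => (1 : ℝ) / ((s : ℕ) : ℝ)) →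
  ∀ θ : Measure ℝ, IsFiniteMeasure θ → ∃ Θ : Measure ℝ, IsFiniteMeasure Θ ∧
    ∀ F : ℝ → ℂ, Measurable F → (∃ B : ℝ, ∀ t, ‖F t‖ ≤ B) →
      HasSum (fun s : E => (1 / ((s : ℕ) : ℂ)) * ∫ t, F (((s : ℕ) : ℝ) * t) ∂θ) (∫ t, F t ∂Θ)

/-- **SWV**. The part of the sawtooth function with frequencies prime to `B`.
Hint: `V z = ∑_{e ∣ B} μ(e) / e * sw (e z)`; `∑_{s ∈ Sm B} V(s z) / s = ∑_n sw(n z) / n * ∑_{s e = n} μ(e) = sw z`
(absolutely summable, `∑_{e ∣ n} μ(e) = [n = 1]`, every divisor `e` of a smooth `n` divides a power of `B`,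
squarefree ones divide `B`). The Fourier coefficient of `sw (e u)` at `n` is `-1 / (2π i (n / e))` if `e ∣ n`, else `0`
(see `coef_saw`, `Pool/Agent/U798/OP/D.lean`); so the coefficient of `V` at `n` is a multiple of
`∑_{e ∣ gcd(B, n)} μ(e)`. Right continuity: `Pool/Agent/U798/BV/Core3.lean`, `rc_sw_mul`. -/
def S_SWV : Prop := ∀ B : ℕ, 1 ≤ B → ∃ V : ℝ → ℝ, Measurable V ∧ (∃ C : ℝ, ∀ t, |V t| ≤ C) ∧
  (∀ t, V (t + 1) = V t) ∧ (∀ t, ContinuousWithinAt V (Set.Ici t) t) ∧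
  (∀ n : ℤ, ¬ IsCoprime n (B : ℤ) → (∫ u in (0 : ℝ)..1, e1 (-(n * u)) * (V u : ℂ)) = 0) ∧
  ∀ z : ℝ, HasSum (fun s : Sm B => V (((s : ℕ) : ℝ) * z) / ((s : ℕ) : ℝ)) (sw z)

/-- **DAV2**. Davenport's estimate for the frequencies prime to `B`, in terms of the sawtooth function.
Hint: as `Pool/Agent/U894/BV/DAV.lean` (from `ser_limit` in `Pool/Agent/U798/MN/D4.lean`, principal character
modulo `B`, `dig 1 y = - ∑_{e ∣ B} μ(e) / e * sw (e y)`), then `sw y = ∑_{s ∈ Sm B} V(s y) / s`,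
`V = - dig 1` (absolutely convergent), so the sum is `- ∑_s (1 / s) ser 1 K (s y)`, and
`tgt 1 (s y) = sin (2 π s y) / π`; `s y` is irrational. Uniform because `∑ 1 / s < ∞`. -/
def S_DAV2 : Prop := ∀ B : ℕ, 2 ≤ B → ∃ (C : ℝ) (K0 : ℕ), 3 ≤ K0 ∧
  ∀ K : ℕ, K0 ≤ K → ∀ y : ℝ, Irrational y →
    |(∑ k ∈ (Finset.Icc 1 K).filter (fun k => Nat.Coprime k B),
      ((ArithmeticFunction.moebius k : ℤ) : ℝ) / k * sw (k * y)) +
        (∑' s : Sm B, Real.sin (2 * Real.pi * (((s : ℕ) : ℝ) * y)) / ((s : ℕ) : ℝ)) / Real.pi| ≤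
      C / Real.log K

/-- **SIEW**. Sieve for absolutely summable sequences, any `B`.
Hint: adapt `Pool/Agent/U858/BV/SIEV.lean`. -/
def S_SIEW : Prop := ∀ B : ℕ, 1 ≤ B → ∀ c : ℤ → ℂ, Summable c →
  (∀ d : ℕ, 1 ≤ d → Nat.Coprime d B → ∑' n : ℤ, (if n ≠ 0 ∧ (d : ℤ) ∣ n then c n else 0) = 0) →
  ∀ m : ℕ, 1 ≤ m → Nat.Coprime m B →
    ∑' s : Sm B, (c (((s : ℕ) : ℤ) * m) + c (-(((s : ℕ) : ℤ) * m))) = 0

/-- **PART**. Hint: sum over the quotient (`Summable.tsum_sigma'`/`HasSum.sigma`,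
`Equiv.sigmaFiberEquiv (Quotient.mk _)`). -/
def S_PART : Prop := ∀ (ι : Type) (R : ι → ι → Prop), Equivalence R → ∀ g : ι → ℂ, Summable g →
  (∀ i, ∑' j, Set.indicator {j | R j i} g j = 0) → ∑' j, g j = 0

/-- **REIX**. Reindexing of a class.
Hint: `n = σ d`, `σ` the largest divisor of `|n|` composed of primes dividing `p q`, `d` with the sign of `n`. If
`Cl p q m n` then `m = s d` with `s ∈ Sm (p q)` and `Cl p q s σ` (compare the parts prime to `p q` and the
signs); conversely clear. -/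
def S_REIX : Prop := ∀ p q : ℕ, 2 ≤ p → 2 ≤ q → ∀ n : ℤ, n ≠ 0 →
  ∃ σ ∈ Sm (p * q), ∃ d : ℤ, d ≠ 0 ∧ Nat.Coprime d.natAbs (p * q) ∧ n = (σ : ℤ) * d ∧
    ∀ c : ℤ → ℂ, ∑' m : ℤ, Set.indicator {m : ℤ | Cl p q m n} c m =
      ∑' s : Sm (p * q), Set.indicator {s : ℕ | Cl p q s σ} (fun s => c ((s : ℤ) * d)) (s : ℕ)

end Pool.Agent.U798.GP
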