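import Pool.Agent.U798.GP.Spec

set_option autoImplicit false

open MeasureTheory Filter Topology

namespace Pool.Agent.U798.GP

theorem t_RESM' : S_RESM := by
  intro E hE hS θ hθ
  set w : E → ℝ := fun s => (1 : ℝ) / ((s : ℕ) : ℝ) with hw
  have hw0 : ∀ s, 0 ≤ w s := fun s => by simp only [hw]; positivity
  have hTm : ∀ s : E, Measurable fun t : ℝ => ((s : ℕ) : ℝ) * t := fun s => measurable_const_mul _
  set Θ : Measure ℝ := Measure.sum fun s : E => ENNReal.ofReal (w s) • θ.map (fun t => ((s : ℕ) : ℝ) * t)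
    with hΘ
  have hfin : IsFiniteMeasure Θ := by
    constructor
    rw [hΘ, Measure.sum_apply _ MeasurableSet.univ]
    have h1 : ∀ s : E, (ENNReal.ofReal (w s) • θ.map (fun t => ((s : ℕ) : ℝ) * t)) Set.univ =
        ENNReal.ofReal (w s) * θ Set.univ := by
      intro s
      rw [Measure.smul_apply, Measure.map_apply (hTm s) MeasurableSet.univ]
      simp
    simp_rw [h1]
    rw [ENNReal.tsum_mul_right, ← ENNReal.ofReal_tsum_of_nonneg hw0 hS]
    exact ENNReal.mul_lt_top ENNReal.ofReal_lt_top (measure_lt_top θ _)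
  refine ⟨Θ, hfin, ?_⟩
  rintro F hF ⟨B, hB⟩
  have hint : Integrable F Θ := Integrable.of_bound hF.aestronglyMeasurable B (Eventually.of_forall hB)
  have h := hasSum_integral_measure (μ := fun s : E =>
    ENNReal.ofReal (w s) • θ.map (fun t => ((s : ℕ) : ℝ) * t)) (f := F) hint
  have h2 : ∀ s : E, ∫ t, F t ∂(ENNReal.ofReal (w s) • θ.map (fun t => ((s : ℕ) : ℝ) * t)) =
      (1 / ((s : ℕ) : ℂ)) * ∫ t, F (((s : ℕ) : ℝ) * t) ∂θ := by
    intro s
    rw [integral_smul_measure, ENNReal.toReal_ofReal (hw0 s),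
      integral_map (hTm s).aemeasurable hF.aestronglyMeasurable, Complex.real_smul]
    simp only [hw]
    push_cast
    rfl
  simp_rw [h2] at h
  exact h

end Pool.Agent.U798.GP
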