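import Pool.Agent.U798.BV.Core4
import Pool.Agent.U798.GP.Spec

set_option autoImplicit false

open MeasureTheory Filter Topology
open Pool.Agent.H807R2.Dav
open Pool.Agent.U798.MN Pool.Agent.U798.FA Pool.Agent.U798.OP Pool.Agent.U798.BV

namespace Pool.Agent.U798.GP

lemma inv_iff (p q : ℕ) (μ : Measure (AddCircle (1 : ℝ))) : Inv p q μ ↔ Joint p q μ :=
  ⟨fun h => ⟨h.1, ⟨h.2.1⟩, h.2.2.1, h.2.2.2⟩,
    fun h => ⟨h.1, fun x => h.2.1.measure_singleton x, h.2.2.1, h.2.2.2⟩⟩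

lemma hc_eq (μ : Measure (AddCircle (1 : ℝ))) (n : ℤ) : hc μ n = hh μ n := rfl

/-- invariance of the Fourier coefficients on a class -/
lemma hh_cl {p q : ℕ} {μ : Measure UnitAddCircle}
    (h2 : MeasurePreserving (fun x : UnitAddCircle => p • x) μ μ)
    (h3 : MeasurePreserving (fun x : UnitAddCircle => q • x) μ μ) {m n : ℤ} (h : Cl p q m n) :
    hh μ m = hh μ n := by
  obtain ⟨a, b, c, d, e⟩ := h
  have e1 : hh μ (m * (p : ℤ) ^ a * (q : ℤ) ^ b) = hh μ m := by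
    rw [hh_pow μ q h3, hh_pow μ p h2]
  have e2 : hh μ (n * (p : ℤ) ^ c * (q : ℤ) ^ d) = hh μ n := by
    rw [hh_pow μ q h3, hh_pow μ p h2]
  rw [← e1, ← e2, e]

/-- the reduced hypothesis -/
def HG (p q : ℕ) (θ₁ θ₂ : Measure ℝ) : Prop :=
  ∀ μ : Measure UnitAddCircle, Joint p q μ → ∫ t, gf μ t ∂θ₁ = ∫ t, gf μ t ∂θ₂

lemma gf_dil (g : ℕ) (μ : Measure UnitAddCircle) (t : ℝ) :
    gf (dil g μ) t = ∫ y, sw (g * y - t) ∂(law μ) := by
  have h1 := law_dil g μ (fun y => ((sw (y - t) : ℝ) : ℂ))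
    (Complex.measurable_ofReal.comp (meas_sw.comp (measurable_id.sub_const t)))
    (fun y z => by
      have : y + (z : ℝ) - t = (y - t) + z := by ring
      simp only
      rw [this, sw_add_int])
  rw [integral_complex_ofReal, integral_complex_ofReal] at h1
  unfold gf
  exact_mod_cast h1.symm

lemma HG_step {p q : ℕ} {θ₁ θ₂ : Measure ℝ} (H : HG p q θ₁ θ₂)
    (μ : Measure UnitAddCircle) (hμ : Joint p q μ) (g d : ℕ) (hg : 1 ≤ g) (hd : 1 ≤ d)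
    (cg : Nat.Coprime g (p * q)) (cd : Nat.Coprime d (p * q)) :
    ∫ t, (∫ y, sw (g * (y - d * t)) ∂(law μ)) ∂θ₁ =
      ∫ t, (∫ y, sw (g * (y - d * t)) ∂(law μ)) ∂θ₂ := by
  have hg0 : (g : ℤ) ≠ 0 := by exact_mod_cast (by omega : g ≠ 0)
  have h1 := joint_dil (g : ℤ) hg0 hμ
  have h1' := h1.1
  have hgd : 1 ≤ g * d := Nat.mul_pos hg hd
  have c0 : Nat.Coprime (g * d) (p * q) := Nat.Coprime.mul_left cg cd
  have c1 : Nat.Coprime p (g * d) := (Nat.Coprime.coprime_mul_right_right c0).symm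
  have c2 : Nat.Coprime q (g * d) := (Nat.Coprime.coprime_mul_left_right c0).symm
  have h2 := H _ (joint_dv (g * d) hgd c1 c2 h1)
  have e : ∀ t : ℝ, gf (dv (g * d) (dil g μ)) t =
      (1 / ((g * d : ℕ) : ℝ)) * ∫ y, sw (g * (y - d * t)) ∂(law μ) := by
    intro t
    rw [dv_gf (g * d) hgd, gf_dil]
    have : ∀ y : ℝ, (g : ℝ) * y - ((g * d : ℕ) : ℝ) * t = g * (y - d * t) := by
      intro y
      push_cast
      ring
    simp_rw [this]
  simp_rw [e] at h2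
  rw [integral_const_mul, integral_const_mul] at h2
  have h3 : (1 / ((g * d : ℕ) : ℝ)) ≠ 0 := by
    have : ((g * d : ℕ) : ℝ) ≠ 0 := by exact_mod_cast (by omega : g * d ≠ 0)
    exact one_div_ne_zero this
  exact mul_left_cancel₀ h3 h2

/-- the limit function -/
noncomputable def ZZ (B : ℕ) (y : ℝ) : ℝ :=
  ∑' s : Sm B, Real.sin (2 * Real.pi * (((s : ℕ) : ℝ) * y)) / ((s : ℕ) : ℝ)

lemma sm_pos {B : ℕ} (s : Sm B) : (0 : ℝ) < ((s : ℕ) : ℝ) := by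
  exact_mod_cast s.2.1

lemma ZZ_term (B : ℕ) (s : Sm B) (y : ℝ) :
    ‖Real.sin (2 * Real.pi * (((s : ℕ) : ℝ) * y)) / ((s : ℕ) : ℝ)‖ ≤ 1 / ((s : ℕ) : ℝ) := by
  rw [norm_div, Real.norm_eq_abs, Real.norm_eq_abs, abs_of_pos (sm_pos s)]
  exact div_le_div_of_nonneg_right (Real.abs_sin_le_one _) (sm_pos s).le

lemma ZZ_cont (hSMS : S_SMS) (B : ℕ) (hB : 1 ≤ B) : Continuous (ZZ B) := by
  unfold ZZ
  refine continuous_tsum (fun s => ?_) (hSMS B hB) (fun s y => ZZ_term B s y)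
  fun_prop

lemma ZZ_bdd (hSMS : S_SMS) (B : ℕ) (hB : 1 ≤ B) (y : ℝ) :
    |ZZ B y| ≤ ∑' s : Sm B, (1 : ℝ) / ((s : ℕ) : ℝ) := by
  unfold ZZ
  rw [← Real.norm_eq_abs]
  exact tsum_of_norm_bounded (hSMS B hB).hasSum (fun s => ZZ_term B s y)

/-- the main identity -/
lemma main_id2 (hDAV2 : S_DAV2) (hSMS : S_SMS) {p q : ℕ} (hp : 2 ≤ p) (hq : 2 ≤ q)
    {θ₁ θ₂ : Measure ℝ} [IsFiniteMeasure θ₁] [IsFiniteMeasure θ₂] (H : HG p q θ₁ θ₂)
    (μ : Measure UnitAddCircle) (hμ : Joint p q μ) (d : ℕ) (hd : 1 ≤ d)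
    (cd : Nat.Coprime d (p * q)) :
    ∫ z, ZZ (p * q) (z.2 - d * z.1) ∂(θ₁.prod (law μ)) =
      ∫ z, ZZ (p * q) (z.2 - d * z.1) ∂(θ₂.prod (law μ)) := by
  have hm1 := hμ.1
  have hm2 := hμ.2.1
  have hB : 2 ≤ p * q := by nlinarith
  have hB1 : 1 ≤ p * q := by omega
  obtain ⟨C, K0, hK0, hC⟩ := hDAV2 (p * q) hB
  set SS : ℕ → Finset ℕ := fun K => (Finset.Icc 1 K).filter (fun k => Nat.Coprime k (p * q)) with hSS
  set w : ℕ → ℝ := fun k => ((ArithmeticFunction.moebius k : ℤ) : ℝ) / k with hw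
  have hVb : ∀ (k : ℕ) (t : ℝ), |sw (k * t)| ≤ 1 / 2 := fun k t => abs_sw _
  have hVm : ∀ k : ℕ, Measurable fun t : ℝ => sw (k * t) := fun k =>
    meas_sw.comp (measurable_const_mul (k : ℝ))
  have hsum : ∀ (Θ : Measure ℝ) [IsFiniteMeasure Θ] (K : ℕ),
      ∫ z, (∑ k ∈ SS K, w k * sw (k * (z.2 - d * z.1))) ∂(Θ.prod (law μ)) =
      ∑ k ∈ SS K, w k * ∫ t, (∫ y, sw (k * (y - d * t)) ∂(law μ)) ∂Θ := by
    intro Θ _ K
    rw [integral_finsetSum]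
    · refine Finset.sum_congr rfl fun k _ => ?_
      rw [integral_const_mul]
      rw [prodI Θ (law μ) d (fun t => sw (k * t)) (hVm k) (1 / 2) (hVb k)]
    · intro k _
      exact (intI _ d (fun t => sw (k * t)) (hVm k) (1 / 2) (hVb k)).const_mul _
  have heq : ∀ K : ℕ,
      ∫ z, (∑ k ∈ SS K, w k * sw (k * (z.2 - d * z.1))) ∂(θ₁.prod (law μ)) =
      ∫ z, (∑ k ∈ SS K, w k * sw (k * (z.2 - d * z.1))) ∂(θ₂.prod (law μ)) := by
    intro K
    rw [hsum θ₁ K, hsum θ₂ K]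
    refine Finset.sum_congr rfl fun k hk => ?_
    rw [hSS, Finset.mem_filter, Finset.mem_Icc] at hk
    rw [HG_step H μ hμ k d hk.1.1 hd hk.2 cd]
  have hZc := ZZ_cont hSMS (p * q) hB1
  have hZb := ZZ_bdd hSMS (p * q) hB1
  have hbd : ∀ (Θ : Measure ℝ) [IsFiniteMeasure Θ] (K : ℕ), K0 ≤ K →
      |∫ z, (∑ k ∈ SS K, w k * sw (k * (z.2 - d * z.1))) ∂(Θ.prod (law μ)) +
        (∫ z, ZZ (p * q) (z.2 - d * z.1) ∂(Θ.prod (law μ))) / Real.pi| ≤
      C / Real.log K * (Θ.prod (law μ)).real Set.univ := by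
    intro Θ _ K hK
    have i1 : Integrable (fun z : ℝ × ℝ => ∑ k ∈ SS K, w k * sw (k * (z.2 - d * z.1)))
        (Θ.prod (law μ)) :=
      integrable_finsetSum _ fun k _ =>
        (intI _ d (fun t => sw (k * t)) (hVm k) (1 / 2) (hVb k)).const_mul _
    have i2 : Integrable (fun z : ℝ × ℝ => ZZ (p * q) (z.2 - d * z.1) / Real.pi)
        (Θ.prod (law μ)) :=
      (intI _ d (ZZ (p * q)) hZc.measurable _ hZb).div_const _
    rw [← integral_div, ← integral_add i1 i2, ← Real.norm_eq_abs]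
    refine norm_integral_le_of_norm_le_const ?_
    filter_upwards [ae_irr Θ μ d] with z hz
    rw [Real.norm_eq_abs]
    exact hC K hK _ hz
  set A := ∫ z, ZZ (p * q) (z.2 - d * z.1) ∂(θ₁.prod (law μ)) with hA
  set B := ∫ z, ZZ (p * q) (z.2 - d * z.1) ∂(θ₂.prod (law μ)) with hB'
  have hle : ∀ K : ℕ, K0 ≤ K → |A / Real.pi - B / Real.pi| ≤
      C / Real.log K * ((θ₁.prod (law μ)).real Set.univ + (θ₂.prod (law μ)).real Set.univ) := by
    intro K hK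
    have g1 := hbd θ₁ K hK
    have g2 := hbd θ₂ K hK
    have g3 := heq K
    rw [g3] at g1
    rw [abs_le] at g1 g2 ⊢
    rw [mul_add]
    constructor <;> linarith [g1.1, g1.2, g2.1, g2.2]
  have hlim : Tendsto (fun K : ℕ => C / Real.log K *
      ((θ₁.prod (law μ)).real Set.univ + (θ₂.prod (law μ)).real Set.univ)) atTop (𝓝 0) := by
    have h1 : Tendsto (fun K : ℕ => Real.log K) atTop atTop :=
      Real.tendsto_log_atTop.comp tendsto_natCast_atTop_atTop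
    have h2 := (h1.const_div_atTop C).mul_const
      ((θ₁.prod (law μ)).real Set.univ + (θ₂.prod (law μ)).real Set.univ)
    rwa [zero_mul] at h2
  have h0 : |A / Real.pi - B / Real.pi| ≤ 0 :=
    ge_of_tendsto hlim (eventually_atTop.2 ⟨K0, hle⟩)
  have h1 : A / Real.pi - B / Real.pi = 0 := abs_eq_zero.1 (le_antisymm h0 (abs_nonneg _))
  have hpi := Real.pi_ne_zero
  have h2 : (A - B) / Real.pi = 0 := by rw [sub_div]; exact h1
  have h3 : A - B = 0 := by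
    rcases div_eq_zero_iff.1 h2 with h | h
    · exact h
    · exact absurd h hpi
  linarith

lemma prod_e1s (Θ : Measure ℝ) [IsFiniteMeasure Θ] (μ : Measure UnitAddCircle)
    [IsProbabilityMeasure μ] (s d : ℕ) :
    ∫ z, e1 (s * (z.2 - d * z.1)) ∂(Θ.prod (law μ)) = ft Θ ((s : ℤ) * d) * hh μ s := by
  have e : ∀ z : ℝ × ℝ, e1 (s * (z.2 - d * z.1)) =
      e1 (-((((s : ℤ) * d : ℤ) : ℝ) * z.1)) * e1 (((s : ℤ) : ℝ) * z.2) := by
    intro z
    rw [← e1_add]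
    congr 1
    push_cast
    ring
  simp_rw [e]
  rw [integral_prod_mul (fun t : ℝ => e1 (-((((s : ℤ) * d : ℤ) : ℝ) * t)))
    (fun y : ℝ => e1 (((s : ℤ) : ℝ) * y))]
  unfold ft hh
  congr 1
  exact integral_law μ s

lemma sin_ids (Θ : Measure ℝ) [IsFiniteMeasure Θ] (μ : Measure UnitAddCircle)
    [IsProbabilityMeasure μ] (s d : ℕ) :
    ∫ z, Real.sin (2 * Real.pi * (s * (z.2 - d * z.1))) ∂(Θ.prod (law μ)) =
      (ft Θ ((s : ℤ) * d) * hh μ s).im := by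
  rw [← prod_e1s Θ μ s d]
  have hi : Integrable (fun z : ℝ × ℝ => e1 (s * (z.2 - d * z.1))) (Θ.prod (law μ)) :=
    Integrable.of_bound (cont_e1.comp (by fun_prop)).aestronglyMeasurable 1
      (Eventually.of_forall fun z => (norm_e1 _).le)
  have h := integral_im hi
  rw [show (∫ z, e1 (s * (z.2 - d * z.1)) ∂(Θ.prod (law μ))).im =
    RCLike.im (∫ z, e1 (s * (z.2 - d * z.1)) ∂(Θ.prod (law μ))) from rfl, ← h]
  refine integral_congr_ae (Eventually.of_forall fun z => ?_)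
  exact (im_e1 _).symm

lemma ZZ_int (hSMS : S_SMS) (B : ℕ) (hB : 1 ≤ B) (Θ : Measure ℝ) [IsFiniteMeasure Θ]
    (μ : Measure UnitAddCircle) [IsProbabilityMeasure μ] (d : ℕ) :
    HasSum (fun s : Sm B => (ft Θ (((s : ℕ) : ℤ) * d) * hh μ ((s : ℕ) : ℤ)).im / ((s : ℕ) : ℝ))
      (∫ z, ZZ B (z.2 - d * z.1) ∂(Θ.prod (law μ))) := by
  have hF : ∀ s : Sm B, Integrable (fun z : ℝ × ℝ =>
      Real.sin (2 * Real.pi * (((s : ℕ) : ℝ) * (z.2 - d * z.1))) / ((s : ℕ) : ℝ))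
      (Θ.prod (law μ)) := by
    intro s
    refine Integrable.of_bound (by fun_prop) (1 / ((s : ℕ) : ℝ)) (Eventually.of_forall fun z => ?_)
    exact ZZ_term B s (z.2 - d * z.1)
  have hn : Summable fun s : Sm B => ∫ z, ‖Real.sin (2 * Real.pi *
      (((s : ℕ) : ℝ) * (z.2 - d * z.1))) / ((s : ℕ) : ℝ)‖ ∂(Θ.prod (law μ)) := by
    refine Summable.of_nonneg_of_le (fun s => integral_nonneg fun z => norm_nonneg _) (fun s => ?_)
      ((hSMS B hB).mul_right ((Θ.prod (law μ)).real Set.univ))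
    have h1 : ∫ z, ‖Real.sin (2 * Real.pi *
        (((s : ℕ) : ℝ) * (z.2 - d * z.1))) / ((s : ℕ) : ℝ)‖ ∂(Θ.prod (law μ)) ≤
        ∫ _z : ℝ × ℝ, 1 / ((s : ℕ) : ℝ) ∂(Θ.prod (law μ)) :=
      integral_mono (hF s).norm (integrable_const _) (fun z => ZZ_term B s (z.2 - d * z.1))
    rw [integral_const, smul_eq_mul] at h1
    exact h1.trans_eq (mul_comm _ _)
  have h := hasSum_integral_of_summable_integral_norm hF hn
  have e : ∀ s : Sm B, ∫ z, Real.sin (2 * Real.pi *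
      (((s : ℕ) : ℝ) * (z.2 - d * z.1))) / ((s : ℕ) : ℝ) ∂(Θ.prod (law μ)) =
      (ft Θ (((s : ℕ) : ℤ) * d) * hh μ ((s : ℕ) : ℤ)).im / ((s : ℕ) : ℝ) := by
    intro s
    rw [integral_div, sin_ids]
  simp_rw [e] at h
  exact h

lemma norm_ft (Θ : Measure ℝ) [IsFiniteMeasure Θ] (n : ℤ) : ‖ft Θ n‖ ≤ Θ.real Set.univ := by
  unfold ft
  refine (norm_integral_le_of_norm_le_const (C := 1)
    (Eventually.of_forall fun t => (norm_e1 _).le)).trans ?_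
  rw [one_mul]

/-- the relation in linear form -/
lemma rel2 (hDAV2 : S_DAV2) (hSMS : S_SMS) {p q : ℕ} (hp : 2 ≤ p) (hq : 2 ≤ q)
    {θ₁ θ₂ : Measure ℝ} [IsFiniteMeasure θ₁] [IsFiniteMeasure θ₂] (H : HG p q θ₁ θ₂)
    (μ : Measure UnitAddCircle) (hμ : Joint p q μ) (d : ℕ) (hd : 1 ≤ d)
    (cd : Nat.Coprime d (p * q)) :
    ∑' s : Sm (p * q), ((ft θ₁ (((s : ℕ) : ℤ) * d) - ft θ₂ (((s : ℕ) : ℤ) * d)) / ((s : ℕ) : ℂ) *
        hh μ ((s : ℕ) : ℤ) +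
      -((ft θ₁ (-(((s : ℕ) : ℤ) * d)) - ft θ₂ (-(((s : ℕ) : ℤ) * d))) / ((s : ℕ) : ℂ)) *
        hh μ (-((s : ℕ) : ℤ))) = 0 := by
  have := hμ.1
  have hB1 : 1 ≤ p * q := by nlinarith
  have h1 := ZZ_int hSMS (p * q) hB1 θ₁ μ d
  have h2 := ZZ_int hSMS (p * q) hB1 θ₂ μ d
  rw [main_id2 hDAV2 hSMS hp hq H μ hμ d hd cd] at h1
  have h3 := (h1.sub h2)
  rw [sub_self] at h3
  have h4 := (Complex.hasSum_ofReal.2 h3).mul_left (2 * Complex.I)
  rw [Complex.ofReal_zero, mul_zero] at h4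
  rw [← h4.tsum_eq]
  congr 1
  funext s
  have hconj : ∀ w : ℂ, w - (starRingEnd ℂ) w = 2 * Complex.I * (w.im : ℂ) := by
    intro w
    apply Complex.ext <;> simp <;> ring
  have hs0 : (((s : ℕ) : ℝ) : ℂ) ≠ 0 := by exact_mod_cast (sm_pos s).ne'
  rw [ft_conj, ft_conj, hh_conj]
  have a1 := hconj (ft θ₁ (((s : ℕ) : ℤ) * d) * hh μ ((s : ℕ) : ℤ))
  have a2 := hconj (ft θ₂ (((s : ℕ) : ℤ) * d) * hh μ ((s : ℕ) : ℤ))
  rw [map_mul] at a1 a2
  have hs1 : (((s : ℕ) : ℝ) : ℂ) = ((s : ℕ) : ℂ) := by push_cast; rfl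
  rw [Complex.ofReal_sub, Complex.ofReal_div, Complex.ofReal_div, hs1]
  rw [hs1] at hs0
  field_simp
  linear_combination a1 - a2

end Pool.Agent.U798.GP
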