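import Pool.Agent.U798.GP.G1

set_option autoImplicit false

open MeasureTheory Filter Topology
open Pool.Agent.H807R2.Dav
open Pool.Agent.U798.MN Pool.Agent.U798.FA Pool.Agent.U798.OP Pool.Agent.U798.BV

namespace Pool.Agent.U798.GP

variable {p q : ℕ} {f : UnitAddCircle → ℝ}

lemma cl_refl (n : ℤ) : Cl p q n n := ⟨0, 0, 0, 0, rfl⟩

lemma cl_symm {m n : ℤ} (h : Cl p q m n) : Cl p q n m := by
  obtain ⟨a, b, c, d, e⟩ := h
  exact ⟨c, d, a, b, e.symm⟩

lemma cl_trans {m n l : ℤ} (h : Cl p q m n) (h' : Cl p q n l) : Cl p q m l := by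
  obtain ⟨a, b, c, d, e⟩ := h
  obtain ⟨a', b', c', d', e'⟩ := h'
  refine ⟨a + a', b + b', c + c', d + d', ?_⟩
  calc m * (p : ℤ) ^ (a + a') * (q : ℤ) ^ (b + b')
      = (m * (p : ℤ) ^ a * (q : ℤ) ^ b) * ((p : ℤ) ^ a' * (q : ℤ) ^ b') := by ring
    _ = (n * (p : ℤ) ^ a' * (q : ℤ) ^ b') * ((p : ℤ) ^ c * (q : ℤ) ^ d) := by rw [e]; ring
    _ = l * (p : ℤ) ^ (c + c') * (q : ℤ) ^ (d + d') := by rw [e']; ring

lemma cl_mul {m n : ℤ} (k : ℤ) (h : Cl p q m n) : Cl p q (m * k) (n * k) := by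
  obtain ⟨a, b, c, d, e⟩ := h
  refine ⟨a, b, c, d, ?_⟩
  linear_combination k * e

/-- class sums -/
noncomputable def AC (p q : ℕ) (f : UnitAddCircle → ℝ) (n : ℤ) : ℂ :=
  ∑' m : ℤ, Set.indicator {m : ℤ | Cl p q m n} (fc f) m

/-- a smooth number divides a power of `p q` -/
lemma sm_dvd {B s : ℕ} (hs : s ∈ Sm B) (hB : 1 ≤ B) : ∃ e : ℕ, s ∣ B ^ e := by
  have h0 : s ≠ 0 := by have := hs.1; omega
  refine ⟨s, ?_⟩
  rw [← Nat.factorization_le_iff_dvd h0 (pow_ne_zero _ (by omega))]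
  intro l
  by_cases hl : l.Prime
  · by_cases hls : l ∣ s
    · have h1 := hs.2 l hl hls
      rw [Nat.factorization_pow, Finsupp.smul_apply, smul_eq_mul]
      have h2 : 1 ≤ B.factorization l := (hl.dvd_iff_one_le_factorization (by omega)).1 h1
      have h3 : s.factorization l ≤ s := (Nat.factorization_lt l h0).le
      calc s.factorization l ≤ s := h3
        _ = s * 1 := (mul_one s).symm
        _ ≤ s * B.factorization l := Nat.mul_le_mul_left s h2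
    · rw [Nat.factorization_eq_zero_of_not_dvd hls]
      exact Nat.zero_le _
  · rw [Nat.factorization_eq_zero_of_not_prime _ hl]
    exact Nat.zero_le _

/-- vanishing at a smooth number for all invariant measures is enough -/
lemma of_sigma (hp : 2 ≤ p) (hq : 2 ≤ q) {σ : ℕ} (hσ : σ ∈ Sm (p * q))
    (h : ∀ μ : Measure UnitAddCircle, Joint p q μ → hh μ (σ : ℤ) = 0) :
    ∀ μ : Measure UnitAddCircle, Joint p q μ → μ = (volume : Measure UnitAddCircle) := by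
  refine of_first p q fun μ hμ => ?_
  obtain ⟨e, k, hk⟩ := sm_dvd hσ (by nlinarith : 1 ≤ p * q)
  have hk0 : (k : ℤ) ≠ 0 := by
    intro h0
    have : k = 0 := by exact_mod_cast h0
    rw [this, mul_zero] at hk
    exact absurd hk (pow_ne_zero _ (by nlinarith))
  have h1 := h _ (joint_dil (k : ℤ) hk0 hμ)
  unfold hh at h1
  rw [dil_fourier] at h1
  have h2 : (k : ℤ) * (σ : ℤ) = 1 * (p : ℤ) ^ e * (q : ℤ) ^ e := by
    have h3 : ((p * q) ^ e : ℕ) = σ * k := hk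
    have h4 : ((p : ℤ) * q) ^ e = σ * k := by exact_mod_cast h3
    rw [mul_pow] at h4
    linear_combination -h4
  have h5 : hh μ ((k : ℤ) * (σ : ℤ)) = hh μ 1 := by
    rw [h2]
    exact hh_cl hμ.2.2.1 hμ.2.2.2 ⟨0, 0, e, e, by ring⟩
  exact h5.symm.trans h1

/-- a relation at the class of `σ` gives the vanishing -/
lemma cls_vanish (hTWL : S_TWL) (hp : 2 ≤ p) (hq : 2 ≤ q) (b b' : ℕ → ℂ)
    (hb : Summable (fun s : Sm (p * q) => b s)) (hb' : Summable (fun s : Sm (p * q) => b' s))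
    (h : ∀ μ : Measure UnitAddCircle, Joint p q μ → ∑' s : Sm (p * q),
      (b s * hh μ ((s : ℕ) : ℤ) + b' s * hh μ (-((s : ℕ) : ℤ))) = 0)
    {σ : ℕ} (hσ : σ ∈ Sm (p * q))
    (hne : ∑' s : Sm (p * q), Set.indicator {n : ℕ | Cl p q n σ} b (s : ℕ) ≠ 0) :
    ∀ μ : Measure UnitAddCircle, Joint p q μ → μ = (volume : Measure UnitAddCircle) := by
  refine of_sigma hp hq hσ fun μ hμ => ?_
  have h1 := hTWL p q hp hq b b' hb hb' (fun ν hν => h ν ((inv_iff p q ν).1 hν)) σ hσ μ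
    ((inv_iff p q μ).2 hμ)
  have h2 : ∀ s : Sm (p * q), Set.indicator {n : ℕ | Cl p q n σ} (fun n => b n * hc μ (n : ℤ)) (s : ℕ) =
      Set.indicator {n : ℕ | Cl p q n σ} b (s : ℕ) * hh μ (σ : ℤ) := by
    intro s
    by_cases hs : (s : ℕ) ∈ {n : ℕ | Cl p q n σ}
    · rw [Set.indicator_of_mem hs, Set.indicator_of_mem hs, hc_eq,
        hh_cl hμ.2.2.1 hμ.2.2.2 hs]
    · rw [Set.indicator_of_notMem hs, Set.indicator_of_notMem hs, zero_mul]
  simp_rw [h2] at h1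
  rw [tsum_mul_right] at h1
  exact (mul_eq_zero.1 h1).resolve_left hne

/-- data attached to a function of bounded variation -/
structure Dt (f : UnitAddCircle → ℝ) where
  θ₁ : Measure ℝ
  θ₂ : Measure ℝ
  c : ℝ
  f1 : IsFiniteMeasure θ₁
  f2 : IsFiniteMeasure θ₂
  hE : {x : ℝ | 0 ≤ x ∧ x < 1 ∧ f (x : UnitAddCircle) ≠
      c - (∫ t, sw (x - t) ∂θ₁) + ∫ t, sw (x - t) ∂θ₂}.Countable

lemma exists_dt (hREP : S_REP) (f : UnitAddCircle → ℝ)
    (hf : BoundedVariationOn (fun t : ℝ => f (t : UnitAddCircle)) (Set.Icc 0 1)) :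
    Nonempty (Dt f) := by
  have h01 : f ((0 : ℝ) : UnitAddCircle) = f ((1 : ℝ) : UnitAddCircle) := by
    congr 1
    have : ((1 : ℝ) : UnitAddCircle) = 0 := AddCircle.coe_period 1
    rw [this]
    rfl
  obtain ⟨θ₁, θ₂, c, h1, h2, hE⟩ := hREP (fun t : ℝ => f (t : UnitAddCircle)) hf h01
  exact ⟨⟨θ₁, θ₂, c, h1, h2, hE⟩⟩

lemma dt_c (hFOUR : S_FOUR) (D : Dt f) : ∫ x, f x = D.c := by
  have h := (hFOUR (fun t : ℝ => f (t : UnitAddCircle)) D.θ₁ D.θ₂ D.c D.f1 D.f2 D.hE).1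
  rw [← h]
  have h2 := UnitAddCircle.intervalIntegral_preimage (0 : ℝ) f
  rw [zero_add] at h2
  exact h2.symm

lemma dt_int (D : Dt f) (μ : Measure UnitAddCircle) [IsProbabilityMeasure μ] [NullSingletonClass μ] :
    ∫ x, f x ∂μ = D.c - (∫ t, gf μ t ∂D.θ₁) + ∫ t, gf μ t ∂D.θ₂ := by
  have := D.f1
  have := D.f2
  exact int_f f D.θ₁ D.θ₂ D.c D.hE μ

lemma dt_HG (hFOUR : S_FOUR) (D : Dt f)
    (H : ∀ μ : Measure UnitAddCircle, Joint p q μ → ∫ x, f x ∂μ = ∫ x, f x) :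
    HG p q D.θ₁ D.θ₂ := by
  intro μ hμ
  have := hμ.1
  have := hμ.2.1
  have h1 := H μ hμ
  rw [dt_int D μ, dt_c hFOUR D] at h1
  linarith

/-- the transform of `df` -/
noncomputable def TT (D : Dt f) (n : ℤ) : ℂ := ft D.θ₁ n - ft D.θ₂ n

lemma norm_TT (D : Dt f) (n : ℤ) : ‖TT D n‖ ≤ D.θ₁.real Set.univ + D.θ₂.real Set.univ := by
  have := D.f1
  have := D.f2
  unfold TT
  exact (norm_sub_le _ _).trans (add_le_add (norm_ft _ _) (norm_ft _ _))

lemma TT_conj (D : Dt f) (n : ℤ) : TT D (-n) = (starRingEnd ℂ) (TT D n) := by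
  unfold TT
  rw [ft_conj, ft_conj, map_sub]

lemma fc_TT (hFOUR : S_FOUR) (D : Dt f) (n : ℤ) (hn : n ≠ 0) :
    fc f n = (1 / (2 * Real.pi * Complex.I * n)) * TT D n := by
  have h := (hFOUR (fun t : ℝ => f (t : UnitAddCircle)) D.θ₁ D.θ₂ D.c D.f1 D.f2 D.hE).2 n hn
  unfold fc
  rw [fc_eq, h]
  rfl

lemma summ_TT (hSMS : S_SMS) (hB : 1 ≤ p * q) (D : Dt f) (g : ℕ → ℤ) :
    Summable (fun s : Sm (p * q) => TT D (g s) / ((s : ℕ) : ℂ)) := by
  refine Summable.of_norm_bounded ((hSMS (p * q) hB).mul_left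
    (D.θ₁.real Set.univ + D.θ₂.real Set.univ)) fun s => ?_
  rw [norm_div, Complex.norm_natCast, mul_one_div]
  exact div_le_div_of_nonneg_right (norm_TT D _) (sm_pos s).le

/-- **decisive functions of bounded variation** -/
theorem bv_dec2 (hDAV2 : S_DAV2) (hSMS : S_SMS) (hTWL : S_TWL) (hFOUR : S_FOUR) (hREIX : S_REIX)
    (hp : 2 ≤ p) (hq : 2 ≤ q) (D : Dt f) (n : ℤ) (hn : n ≠ 0) (hA : AC p q f n ≠ 0)
    (H : ∀ μ : Measure UnitAddCircle, Joint p q μ → ∫ x, f x ∂μ = ∫ x, f x) :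
    ∀ μ : Measure UnitAddCircle, Joint p q μ → μ = (volume : Measure UnitAddCircle) := by
  have := D.f1
  have := D.f2
  have hB : 1 ≤ p * q := by nlinarith
  obtain ⟨σ, hσ, d, hd0, hdc, hnd, hre⟩ := hREIX p q hp hq n hn
  have hH := dt_HG hFOUR D H
  -- the class sum in terms of `T`
  have e1 : ∀ s : Sm (p * q), Set.indicator {s : ℕ | Cl p q s σ} (fun s => fc f ((s : ℤ) * d)) (s : ℕ) =
      (1 / (2 * Real.pi * Complex.I * d)) *
        Set.indicator {s : ℕ | Cl p q s σ} (fun s => TT D ((s : ℤ) * d) / (s : ℂ)) (s : ℕ) := by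
    intro s
    by_cases hs : (s : ℕ) ∈ {s : ℕ | Cl p q s σ}
    · rw [Set.indicator_of_mem hs, Set.indicator_of_mem hs]
      have hs0 : ((s : ℕ) : ℤ) ≠ 0 := by
        have := s.2.1
        exact_mod_cast (by omega : (s : ℕ) ≠ 0)
      rw [fc_TT hFOUR D _ (mul_ne_zero hs0 hd0)]
      have hc1 : ((s : ℕ) : ℂ) ≠ 0 := by exact_mod_cast hs0
      have hc2 : (d : ℂ) ≠ 0 := by exact_mod_cast hd0
      have hpi : (Real.pi : ℂ) ≠ 0 := by exact_mod_cast Real.pi_ne_zero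
      have hI := Complex.I_ne_zero
      push_cast
      field_simp
    · rw [Set.indicator_of_notMem hs, Set.indicator_of_notMem hs, mul_zero]
  have h1 : ∑' s : Sm (p * q), Set.indicator {s : ℕ | Cl p q s σ}
      (fun s => TT D ((s : ℤ) * d) / (s : ℂ)) (s : ℕ) ≠ 0 := by
    intro h0
    apply hA
    unfold AC
    rw [hre (fc f)]
    simp_rw [e1]
    rw [tsum_mul_left, h0, mul_zero]
  -- reduce to positive `d`
  have hdN : 1 ≤ d.natAbs := Int.natAbs_pos.2 hd0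
  have h2 : ∑' s : Sm (p * q), Set.indicator {s : ℕ | Cl p q s σ}
      (fun s => TT D ((s : ℤ) * (d.natAbs : ℤ)) / (s : ℂ)) (s : ℕ) ≠ 0 := by
    rcases Int.natAbs_eq d with hd | hd
    · rwa [← hd]
    · intro h0
      apply h1
      have h3 := congrArg (starRingEnd ℂ) h0
      rw [map_zero, Complex.conj_tsum] at h3
      rw [← h3]
      congr 1
      funext s
      by_cases hs : (s : ℕ) ∈ {s : ℕ | Cl p q s σ}
      · rw [Set.indicator_of_mem hs, Set.indicator_of_mem hs, map_div₀, ← TT_conj]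
        have e3 : ((s : ℕ) : ℤ) * d = -(((s : ℕ) : ℤ) * (d.natAbs : ℤ)) := by
          conv_lhs => rw [hd]
          ring
        rw [e3, Complex.conj_natCast]
      · rw [Set.indicator_of_notMem hs, Set.indicator_of_notMem hs, map_zero]
  refine cls_vanish hTWL hp hq (fun s => TT D ((s : ℤ) * (d.natAbs : ℤ)) / (s : ℂ))
    (fun s => -(TT D (-((s : ℤ) * (d.natAbs : ℤ))) / (s : ℂ)))
    (summ_TT hSMS hB D (fun s => (s : ℤ) * (d.natAbs : ℤ)))
    (summ_TT hSMS hB D (fun s => -((s : ℤ) * (d.natAbs : ℤ)))).neg (fun μ hμ => ?_) hσ h2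
  exact rel2 hDAV2 hSMS hp hq hH μ hμ d.natAbs hdN hdc

end Pool.Agent.U798.GP
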