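import Pool.Agent.U798.GP.G2

set_option autoImplicit false

open MeasureTheory Filter Topology
open Pool.Agent.H807R2.Dav
open Pool.Agent.U798.MN Pool.Agent.U798.FA Pool.Agent.U798.OP Pool.Agent.U798.BV

namespace Pool.Agent.U798.GP

variable {p q : ℕ} {f : UnitAddCircle → ℝ}

/-- uniqueness of the decomposition -/
lemma uniq {B σ σ' : ℕ} {d d' : ℤ} (hσ : σ ∈ Sm B) (hσ' : σ' ∈ Sm B) (hd : Nat.Coprime d.natAbs B)
    (hd' : Nat.Coprime d'.natAbs B) (h : (σ : ℤ) * d = σ' * d') : σ = σ' ∧ d = d' := by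
  have key : ∀ {a b : ℕ} {x y : ℤ}, a ∈ Sm B → b ∈ Sm B → Nat.Coprime y.natAbs B →
      (a : ℤ) * x = b * y → a ∣ b := by
    intro a b x y ha hb hy e
    have h1 : a ∣ b * y.natAbs := by
      have h2 : (a : ℤ) ∣ b * y := ⟨x, e.symm⟩
      have h3 := Int.natAbs_dvd_natAbs.2 h2
      rwa [Int.natAbs_natCast, Int.natAbs_mul, Int.natAbs_natCast] at h3
    have hc : Nat.Coprime a y.natAbs := by
      rw [Nat.coprime_iff_gcd_eq_one]
      by_contra hg
      obtain ⟨l, hl, hlg⟩ := Nat.exists_prime_and_dvd hg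
      have h4 := ha.2 l hl (hlg.trans (Nat.gcd_dvd_left _ _))
      have h5 : l ∣ y.natAbs := hlg.trans (Nat.gcd_dvd_right _ _)
      have h6 : l ∣ Nat.gcd y.natAbs B := Nat.dvd_gcd h5 h4
      rw [Nat.coprime_iff_gcd_eq_one.1 hy] at h6
      exact hl.one_lt.ne' (Nat.dvd_one.1 h6)
    exact hc.dvd_of_dvd_mul_right h1
  have e1 : σ = σ' := Nat.dvd_antisymm (key hσ hσ' hd' h) (key hσ' hσ hd h.symm)
  refine ⟨e1, ?_⟩
  subst e1
  have hs0 : (σ : ℤ) ≠ 0 := by
    have := hσ.1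
    exact_mod_cast (by omega : σ ≠ 0)
  exact mul_left_cancel₀ hs0 h

lemma AC_eq (hFOUR : S_FOUR) (hREIX : S_REIX) (hp : 2 ≤ p) (hq : 2 ≤ q) (D : Dt f) {σ : ℕ}
    (hσ : σ ∈ Sm (p * q)) {d : ℤ} (hd0 : d ≠ 0) (hdc : Nat.Coprime d.natAbs (p * q)) :
    AC p q f ((σ : ℤ) * d) = (1 / (2 * Real.pi * Complex.I * d)) * ∑' s : Sm (p * q),
      Set.indicator {s : ℕ | Cl p q s σ} (fun s => TT D ((s : ℤ) * d) / (s : ℂ)) (s : ℕ) := by
  have hs0 : (σ : ℤ) ≠ 0 := by
    have := hσ.1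
    exact_mod_cast (by omega : σ ≠ 0)
  obtain ⟨σ', hσ', d', hd0', hdc', hnd, hre⟩ := hREIX p q hp hq ((σ : ℤ) * d) (mul_ne_zero hs0 hd0)
  obtain ⟨u1, u2⟩ := uniq hσ hσ' hdc hdc' hnd
  subst u1
  subst u2
  unfold AC
  rw [hre (fc f), ← tsum_mul_left]
  congr 1
  funext s
  by_cases hs : (s : ℕ) ∈ {s : ℕ | Cl p q s σ}
  · rw [Set.indicator_of_mem hs, Set.indicator_of_mem hs]
    have hs0 : ((s : ℕ) : ℤ) ≠ 0 := by
      have := s.2.1
      exact_mod_cast (by omega : (s : ℕ) ≠ 0)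
    rw [fc_TT hFOUR D _ (mul_ne_zero hs0 hd0)]
    have hc1 : ((s : ℕ) : ℂ) ≠ 0 := by exact_mod_cast hs0
    have hc2 : (d : ℂ) ≠ 0 := by exact_mod_cast hd0
    have hpi : (Real.pi : ℂ) ≠ 0 := by exact_mod_cast Real.pi_ne_zero
    have hI := Complex.I_ne_zero
    push_cast
    field_simp
  · rw [Set.indicator_of_notMem hs, Set.indicator_of_notMem hs, mul_zero]

/-- the smooth numbers of one class -/
def EE (p q σ : ℕ) : Set ℕ := {s | s ∈ Sm (p * q) ∧ Cl p q s σ}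

lemma tsum_EE (p q σ : ℕ) (g : ℕ → ℂ) : ∑' s : EE p q σ, g s =
    ∑' s : Sm (p * q), Set.indicator {s : ℕ | Cl p q s σ} g (s : ℕ) := by
  rw [tsum_subtype (EE p q σ) g, tsum_subtype (Sm (p * q)) (Set.indicator {s : ℕ | Cl p q s σ} g)]
  congr 1
  rw [Set.indicator_indicator]
  rfl

lemma summ_EE (hSMS : S_SMS) (hB : 1 ≤ p * q) (σ : ℕ) :
    Summable fun s : EE p q σ => (1 : ℝ) / ((s : ℕ) : ℝ) := by
  have h := hSMS (p * q) hB
  exact h.comp_injective (i := fun s : EE p q σ => (⟨s.1, s.2.1⟩ : Sm (p * q)))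
    (fun a b hab => Subtype.ext (congrArg (fun x : Sm (p * q) => (x : ℕ)) hab))

lemma dil_cl {μ : Measure UnitAddCircle} [IsProbabilityMeasure μ]
    (h2 : MeasurePreserving (fun x : UnitAddCircle => p • x) μ μ)
    (h3 : MeasurePreserving (fun x : UnitAddCircle => q • x) μ μ) {s t : ℕ} (h : Cl p q s t) :
    dil s μ = dil t μ := by
  apply fourier_ext
  intro n
  rw [dil_fourier, dil_fourier]
  exact hh_cl h2 h3 (cl_mul n h)

/-- the trivial case: the integrals of `g` agree, for all invariant probability measures -/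
theorem triv_gf (hSWV : S_SWV) (hRESM : S_RESM) (hTRIV : S_TRIV) (hSMS : S_SMS) (hPART : S_PART)
    (hREIX : S_REIX) (hFOUR : S_FOUR) (hp : 2 ≤ p) (hq : 2 ≤ q) (D : Dt f)
    (hA : ∀ n : ℤ, n ≠ 0 → AC p q f n = 0) (μ : Measure UnitAddCircle) [IsProbabilityMeasure μ]
    (h2 : MeasurePreserving (fun x : UnitAddCircle => p • x) μ μ)
    (h3 : MeasurePreserving (fun x : UnitAddCircle => q • x) μ μ) :
    ∫ t, gf μ t ∂D.θ₁ = ∫ t, gf μ t ∂D.θ₂ := by
  classical
  have hf1 := D.f1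
  have hf2 := D.f2
  have hB : 1 ≤ p * q := by nlinarith
  obtain ⟨V, hVm, ⟨C, hC⟩, hV1, hVr, hVF, hVS⟩ := hSWV (p * q) hB
  have hVint : ∀ (t : ℝ) (m : ℤ), V (t + m) = V t := by
    intro t m
    have hper : Function.Periodic V 1 := hV1
    have := hper.int_mul m t
    rwa [mul_one] at this
  -- the double integrals
  set G : Measure ℝ → ℕ → ℝ := fun θ s => ∫ t, (∫ y, V (s * (y - t)) ∂(law μ)) ∂θ with hG
  have hVs : ∀ s : ℕ, Measurable fun t : ℝ => V (s * t) := fun s =>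
    hVm.comp (measurable_const_mul (s : ℝ))
  -- (1) the sum over all smooth numbers
  have h1 : ∀ (θ : Measure ℝ) [IsFiniteMeasure θ],
      HasSum (fun s : Sm (p * q) => G θ s / ((s : ℕ) : ℝ)) (∫ t, gf μ t ∂θ) := by
    intro θ _
    have hF : ∀ s : Sm (p * q), Integrable (fun z : ℝ × ℝ =>
        V (((s : ℕ) : ℝ) * (z.2 - 1 * z.1)) / ((s : ℕ) : ℝ)) (θ.prod (law μ)) := fun s =>
      (intI (θ.prod (law μ)) 1 (fun t => V (s * t)) (hVs s) C (fun t => hC _)).div_const _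
    have hn : Summable fun s : Sm (p * q) => ∫ z, ‖V (((s : ℕ) : ℝ) * (z.2 - 1 * z.1)) /
        ((s : ℕ) : ℝ)‖ ∂(θ.prod (law μ)) := by
      refine Summable.of_nonneg_of_le (fun s => integral_nonneg fun z => norm_nonneg _) (fun s => ?_)
        (((hSMS (p * q) hB).mul_left C).mul_right ((θ.prod (law μ)).real Set.univ))
      have k1 : ∫ z, ‖V (((s : ℕ) : ℝ) * (z.2 - 1 * z.1)) / ((s : ℕ) : ℝ)‖ ∂(θ.prod (law μ)) ≤
          ∫ _z : ℝ × ℝ, C * (1 / ((s : ℕ) : ℝ)) ∂(θ.prod (law μ)) := by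
        refine integral_mono (hF s).norm (integrable_const _) (fun z => ?_)
        simp only
        rw [norm_div, Real.norm_eq_abs, Real.norm_eq_abs, abs_of_pos (sm_pos s), mul_one_div]
        exact div_le_div_of_nonneg_right (hC _) (sm_pos s).le
      rw [integral_const, smul_eq_mul] at k1
      exact k1.trans_eq (mul_comm _ _)
    have h := hasSum_integral_of_summable_integral_norm hF hn
    have e1 : ∀ s : Sm (p * q), ∫ z, V (((s : ℕ) : ℝ) * (z.2 - 1 * z.1)) / ((s : ℕ) : ℝ)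
        ∂(θ.prod (law μ)) = G θ s / ((s : ℕ) : ℝ) := by
      intro s
      rw [integral_div, ← prodI θ (law μ) 1 (fun t => V (s * t)) (hVs s) C (fun t => hC _)]
      simp only [one_mul, hG]
    have e2 : ∫ z : ℝ × ℝ, ∑' s : Sm (p * q), V (((s : ℕ) : ℝ) * (z.2 - 1 * z.1)) / ((s : ℕ) : ℝ)
        ∂(θ.prod (law μ)) = ∫ t, gf μ t ∂θ := by
      have e3 : ∀ z : ℝ × ℝ, ∑' s : Sm (p * q), V (((s : ℕ) : ℝ) * (z.2 - 1 * z.1)) / ((s : ℕ) : ℝ) =
          sw (z.2 - 1 * z.1) := fun z => (hVS _).tsum_eq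
      simp_rw [e3]
      rw [← prodI θ (law μ) 1 sw meas_sw (1 / 2) abs_sw]
      simp only [one_mul]
      rfl
    simp_rw [e1] at h
    rwa [e2] at h
  -- (2) the class sums
  have h4 : ∀ σ : ℕ, σ ∈ Sm (p * q) → ∑' s : Sm (p * q), Set.indicator {s : ℕ | Cl p q s σ}
      (fun s => (((G D.θ₁ s - G D.θ₂ s) / (s : ℝ) : ℝ) : ℂ)) (s : ℕ) = 0 := by
    intro σ hσ
    have hE1 : ∀ s ∈ EE p q σ, 1 ≤ s := fun s hs => hs.1.1
    obtain ⟨Θ₁, t1, r1⟩ := hRESM (EE p q σ) hE1 (summ_EE hSMS hB σ) D.θ₁ D.f1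
    obtain ⟨Θ₂, t2, r2⟩ := hRESM (EE p q σ) hE1 (summ_EE hSMS hB σ) D.θ₂ D.f2
    -- Fourier condition
    have hfour : ∀ n : ℤ, (∫ u in (0 : ℝ)..1, e1 (-(n * u)) * (V u : ℂ)) = 0 ∨
        ∫ t, e1 (-(n * t)) ∂Θ₁ = ∫ t, e1 (-(n * t)) ∂Θ₂ := by
      intro n
      by_cases hn : IsCoprime n ((p * q : ℕ) : ℤ)
      · right
        have hn0 : n ≠ 0 := by
          rintro rfl
          have k1 := isCoprime_zero_left.1 hn
          rw [Int.isUnit_iff] at k1
          have k2 : (4 : ℤ) ≤ ((p * q : ℕ) : ℤ) := by exact_mod_cast (by nlinarith : 4 ≤ p * q)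
          omega
        have hnc : Nat.Coprime n.natAbs (p * q) := by
          have k1 := Int.isCoprime_iff_gcd_eq_one.1 hn
          exact k1
        have hm : Measurable fun t : ℝ => e1 (-(n * t)) :=
          (cont_e1.comp (continuous_const.mul continuous_id).neg).measurable
        have a1 := r1 (fun t : ℝ => e1 (-(n * t))) hm ⟨1, fun t => (norm_e1 _).le⟩
        have a2 := r2 (fun t : ℝ => e1 (-(n * t))) hm ⟨1, fun t => (norm_e1 _).le⟩
        have a3 := (a1.sub a2).tsum_eq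
        have a4 : ∀ s : EE p q σ, (1 / ((s : ℕ) : ℂ)) * ∫ t, e1 (-(n * (((s : ℕ) : ℝ) * t))) ∂D.θ₁ -
            (1 / ((s : ℕ) : ℂ)) * ∫ t, e1 (-(n * (((s : ℕ) : ℝ) * t))) ∂D.θ₂ =
            TT D (((s : ℕ) : ℤ) * n) / ((s : ℕ) : ℂ) := by
          intro s
          have e5 : ∀ t : ℝ, e1 (-(n * (((s : ℕ) : ℝ) * t))) =
              e1 (-((((s : ℕ) : ℤ) * n : ℤ) * t)) := by
            intro t
            congr 1
            push_cast
            ring
          simp_rw [e5]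
          unfold TT ft
          ring
        simp_rw [a4] at a3
        rw [tsum_EE p q σ (fun s => TT D ((s : ℤ) * n) / (s : ℂ))] at a3
        have a5 := hA ((σ : ℤ) * n) (mul_ne_zero (by
          have := hσ.1
          exact_mod_cast (by omega : σ ≠ 0)) hn0)
        rw [AC_eq hFOUR hREIX hp hq D hσ hn0 hnc] at a5
        have hc : (1 / (2 * Real.pi * Complex.I * n) : ℂ) ≠ 0 := by
          have hnc : (n : ℂ) ≠ 0 := by exact_mod_cast hn0
          have hpi : (Real.pi : ℂ) ≠ 0 := by exact_mod_cast Real.pi_ne_zero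
          exact one_div_ne_zero (by simp [hnc, hpi])
        rw [(mul_eq_zero.1 a5).resolve_left hc] at a3
        exact (sub_eq_zero.1 a3.symm)
      · left
        exact hVF n hn
    have hT := hTRIV V hVm ⟨C, hC⟩ hV1 hVr Θ₁ Θ₂ t1 t2 hfour
    -- the function `F`
    set F : ℝ → ℝ := fun u => ∫ y, V (y - u) ∂(law (dil σ μ)) with hF
    have hFm : Measurable F := by
      have h : StronglyMeasurable (fun z : ℝ × ℝ => V (z.2 - z.1)) :=
        (hVm.comp (measurable_snd.sub measurable_fst)).stronglyMeasurable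
      exact (h.integral_prod_right').measurable
    have hFb : ∀ u, |F u| ≤ C := by
      intro u
      rw [← Real.norm_eq_abs]
      refine (norm_integral_le_of_norm_le_const (C := C) (Eventually.of_forall fun t => by
        rw [Real.norm_eq_abs]; exact hC _)).trans ?_
      simp
    have hFG : ∀ (θ : Measure ℝ) (s : ℕ), s ∈ EE p q σ → ∫ t, F (s * t) ∂θ = G θ s := by
      intro θ s hs
      have k0 : dil σ μ = dil s μ := (dil_cl h2 h3 hs.2).symm
      simp only [hF, hG]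
      congr 1
      funext t
      rw [k0]
      have k1 := law_dil s μ (fun y => ((V (y - s * t) : ℝ) : ℂ))
        (Complex.measurable_ofReal.comp (hVm.comp (measurable_id.sub_const _)))
        (fun y z => by
          have : y + (z : ℝ) - s * t = (y - s * t) + z := by ring
          simp only
          rw [this, hVint])
      rw [integral_complex_ofReal, integral_complex_ofReal] at k1
      have k2 : ∫ y, V (s * y - s * t) ∂(law μ) = ∫ y, V (y - s * t) ∂(law (dil s μ)) := by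
        exact_mod_cast k1
      rw [← k2]
      congr 1
      funext y
      rw [mul_sub]
    have hFc : Measurable fun u : ℝ => ((F u : ℝ) : ℂ) := Complex.measurable_ofReal.comp hFm
    have hFcb : ∀ u : ℝ, ‖((F u : ℝ) : ℂ)‖ ≤ C := fun u => by
      rw [Complex.norm_real, Real.norm_eq_abs]
      exact hFb u
    have b1 := r1 (fun u => ((F u : ℝ) : ℂ)) hFc ⟨C, hFcb⟩
    have b2 := r2 (fun u => ((F u : ℝ) : ℂ)) hFc ⟨C, hFcb⟩
    have b3 := (b1.sub b2).tsum_eq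
    have b4 : ∀ s : EE p q σ, (1 / ((s : ℕ) : ℂ)) * ∫ t, ((F (((s : ℕ) : ℝ) * t) : ℝ) : ℂ) ∂D.θ₁ -
        (1 / ((s : ℕ) : ℂ)) * ∫ t, ((F (((s : ℕ) : ℝ) * t) : ℝ) : ℂ) ∂D.θ₂ =
        (((G D.θ₁ s - G D.θ₂ s) / ((s : ℕ) : ℝ) : ℝ) : ℂ) := by
      intro s
      rw [integral_complex_ofReal, integral_complex_ofReal, hFG D.θ₁ s s.2, hFG D.θ₂ s s.2]
      push_cast
      ring
    simp_rw [b4] at b3
    rw [tsum_EE p q σ (fun s => (((G D.θ₁ s - G D.θ₂ s) / (s : ℝ) : ℝ) : ℂ))] at b3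
    rw [b3, integral_complex_ofReal, integral_complex_ofReal]
    -- swap
    have hσ0 : ((σ : ℕ) : ℤ) ≠ 0 := by
      have := hσ.1
      exact_mod_cast (by omega : σ ≠ 0)
    have hsw : ∀ (Θ : Measure ℝ) [IsFiniteMeasure Θ], ∫ u, F u ∂Θ =
        ∫ y, (∫ u, V (y - u) ∂Θ) ∂(law (dil σ μ)) := by
      intro Θ _
      rw [hF]
      refine integral_integral_swap ?_
      refine Integrable.of_bound ?_ C (Eventually.of_forall fun z => by
        rw [Real.norm_eq_abs]; exact hC _)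
      exact (hVm.comp (measurable_snd.sub measurable_fst)).aestronglyMeasurable
    rw [hsw Θ₁, hsw Θ₂]
    simp_rw [hT]
    ring
  -- (3) all classes
  have h5 : ∑' s : Sm (p * q), (((G D.θ₁ s - G D.θ₂ s) / ((s : ℕ) : ℝ) : ℝ) : ℂ) = 0 := by
    refine hPART (Sm (p * q)) (fun s t => Cl p q ((s : ℕ) : ℤ) ((t : ℕ) : ℤ))
      ⟨fun s => cl_refl _, fun h => cl_symm h, fun h h' => cl_trans h h'⟩ _ ?_ (fun σ => ?_)
    · have h6 := ((h1 D.θ₁).sub (h1 D.θ₂)).summable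
      have h7 := Complex.hasSum_ofReal.2 h6.hasSum
      refine h7.summable.congr fun s => ?_
      push_cast
      ring
    · have h6 := h4 σ σ.2
      rw [← h6]
      congr 1
  have h6 := (h1 D.θ₁).sub (h1 D.θ₂)
  have h7 := (Complex.hasSum_ofReal.2 h6).tsum_eq
  have h8 : ∀ s : Sm (p * q), ((G D.θ₁ s / ((s : ℕ) : ℝ) - G D.θ₂ s / ((s : ℕ) : ℝ) : ℝ) : ℂ) =
      (((G D.θ₁ s - G D.θ₂ s) / ((s : ℕ) : ℝ) : ℝ) : ℂ) := by
    intro s
    push_cast
    ring
  simp_rw [h8] at h7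
  rw [h5] at h7
  have h9 : (∫ t, gf μ t ∂D.θ₁) - ∫ t, gf μ t ∂D.θ₂ = 0 := by exact_mod_cast h7.symm
  linarith

end Pool.Agent.U798.GP
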