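import Pool.Agent.U798.GP.G3

set_option autoImplicit false

open MeasureTheory Filter Topology
open Pool.Agent.H807R2.Dav
open Pool.Agent.U798.MN Pool.Agent.U798.FA Pool.Agent.U798.OP Pool.Agent.U798.BV

namespace Pool.Agent.U798.GP

variable {p q : ℕ} {f : UnitAddCircle → ℝ}

/-- the relation for absolutely convergent Fourier series -/
lemma w_rel2 (hSIEW : S_SIEW) (hp : 2 ≤ p) (hq : 2 ≤ q) (hc : Continuous f)
    (hs : Summable (fc f))
    (H : ∀ μ : Measure UnitAddCircle, Joint p q μ → ∫ x, f x ∂μ = ∫ x, f x)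
    (m : ℕ) (hm : 1 ≤ m) (cm : Nat.Coprime m (p * q)) (μ : Measure UnitAddCircle)
    (hμ : Joint p q μ) :
    ∑' s : Sm (p * q), (fc f (((s : ℕ) : ℤ) * m) * hh μ ((s : ℕ) : ℤ) +
      fc f (-(((s : ℕ) : ℤ) * m)) * hh μ (-((s : ℕ) : ℤ))) = 0 := by
  have hB : 1 ≤ p * q := by nlinarith
  have hd : ∀ ν : Measure UnitAddCircle, Joint p q ν → ∀ d : ℕ, 1 ≤ d → Nat.Coprime d (p * q) →
      ∑' n : ℤ, (if n ≠ 0 ∧ (d : ℤ) ∣ n then fc f n * hh ν n else 0) = 0 := by
    intro ν hν d hd cd
    have hν1 := hν.1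
    have hd0 : (d : ℤ) ≠ 0 := by exact_mod_cast (by omega : d ≠ 0)
    have j1 := joint_dil (d : ℤ) hd0 hν
    have j1' := j1.1
    have j2 := joint_dv d hd (Nat.Coprime.coprime_mul_right_right cd).symm
      (Nat.Coprime.coprime_mul_left_right cd).symm j1
    have j2' := j2.1
    have h1 := H _ j2
    have h2 := w_int hc hs (dv d (dil d ν))
    rw [h1, w_vol, split0 _ (summ hs _), hh_zero, mul_one] at h2
    have h3 : ∑' n : ℤ, (if n ≠ 0 then fc f n * hh (dv d (dil d ν)) n else 0) = 0 := by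
      linear_combination -h2
    refine Eq.trans ?_ h3
    congr 1
    funext n
    have h4 : hh (dv d (dil d ν)) n = if (d : ℤ) ∣ n then hh ν n else 0 := by
      unfold hh
      rw [dv_fourier d hd]
      split_ifs with h5
      · rw [dil_fourier, Int.mul_ediv_cancel' h5]
      · rfl
    rw [h4]
    by_cases h5 : n = 0
    · simp [h5]
    · by_cases h6 : (d : ℤ) ∣ n
      · simp [h5, h6]
      · simp [h5, h6]
  have hμ1 := hμ.1
  have j3 := joint_dv m hm (Nat.Coprime.coprime_mul_right_right cm).symm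
      (Nat.Coprime.coprime_mul_left_right cm).symm hμ
  have j3' := j3.1
  have h := hSIEW (p * q) hB (fun n => fc f n * hh (dv m μ) n) (summ hs _) (hd _ j3) m hm cm
  refine Eq.trans ?_ h
  congr 1
  funext s
  have hm0 : (m : ℤ) ≠ 0 := by exact_mod_cast (by omega : m ≠ 0)
  have e1 : hh (dv m μ) (((s : ℕ) : ℤ) * m) = hh μ ((s : ℕ) : ℤ) := by
    unfold hh
    rw [dv_fourier m hm, if_pos (dvd_mul_left _ _), Int.mul_ediv_cancel _ hm0]
  have e2 : hh (dv m μ) (-(((s : ℕ) : ℤ) * m)) = hh μ (-((s : ℕ) : ℤ)) := by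
    rw [hh_conj, hh_conj, e1]
  simp only [e1, e2]

/-- **decisive functions with an absolutely convergent Fourier series** -/
theorem w_dec2 (hTWL : S_TWL) (hSIEW : S_SIEW) (hREIX : S_REIX)
    (hp : 2 ≤ p) (hq : 2 ≤ q) (hc : Continuous f)
    (hs : Summable (fc f)) (n : ℤ) (hn : n ≠ 0) (hA : AC p q f n ≠ 0)
    (H : ∀ μ : Measure UnitAddCircle, Joint p q μ → ∫ x, f x ∂μ = ∫ x, f x) :
    ∀ μ : Measure UnitAddCircle, Joint p q μ → μ = (volume : Measure UnitAddCircle) := by
  obtain ⟨σ, hσ, d, hd0, hdc, hnd, hre⟩ := hREIX p q hp hq n hn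
  have h1 : ∑' s : Sm (p * q), Set.indicator {s : ℕ | Cl p q s σ}
      (fun s => fc f ((s : ℤ) * d)) (s : ℕ) ≠ 0 := by
    intro h0
    apply hA
    unfold AC
    rw [hre (fc f), h0]
  have hdN : 1 ≤ d.natAbs := Int.natAbs_pos.2 hd0
  have h2 : ∑' s : Sm (p * q), Set.indicator {s : ℕ | Cl p q s σ}
      (fun s => fc f ((s : ℤ) * (d.natAbs : ℤ))) (s : ℕ) ≠ 0 := by
    rcases Int.natAbs_eq d with hd | hd
    · rwa [← hd]
    · intro h0
      apply h1
      have h3 := congrArg (starRingEnd ℂ) h0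
      rw [map_zero, Complex.conj_tsum] at h3
      rw [← h3]
      congr 1
      funext s
      by_cases hs : (s : ℕ) ∈ {s : ℕ | Cl p q s σ}
      · rw [Set.indicator_of_mem hs, Set.indicator_of_mem hs, ← fc_conj]
        congr 1
        conv_lhs => rw [hd]
        ring
      · rw [Set.indicator_of_notMem hs, Set.indicator_of_notMem hs, map_zero]
  have hinj : ∀ e : ℤ, e ≠ 0 → Function.Injective fun s : Sm (p * q) => ((s : ℕ) : ℤ) * e := by
    intro e he a b hab
    have h3 : ((a : ℕ) : ℤ) = ((b : ℕ) : ℤ) := mul_right_cancel₀ he hab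
    exact Subtype.ext (by exact_mod_cast h3)
  have hdN0 : (d.natAbs : ℤ) ≠ 0 := by exact_mod_cast (by omega : d.natAbs ≠ 0)
  refine cls_vanish hTWL hp hq (fun s => fc f ((s : ℤ) * (d.natAbs : ℤ)))
    (fun s => fc f (-((s : ℤ) * (d.natAbs : ℤ))))
    (hs.comp_injective (hinj _ hdN0)) ?_ (fun μ hμ => ?_) hσ h2
  · have h4 := hs.comp_injective (hinj _ (neg_ne_zero.2 hdN0))
    refine h4.congr fun s => ?_
    simp only [Function.comp]
    congr 1
    ring
  · exact w_rel2 hSIEW hp hq hc hs H d.natAbs hdN hdc μ hμ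

/-- **trivial functions with an absolutely convergent Fourier series** -/
theorem w_triv2 (hPART : S_PART) (hp : 2 ≤ p) (hq : 2 ≤ q) (hc : Continuous f)
    (hs : Summable (fc f)) (hA : ∀ n : ℤ, n ≠ 0 → AC p q f n = 0) (μ : Measure UnitAddCircle)
    [IsProbabilityMeasure μ]
    (h2 : MeasurePreserving (fun x : UnitAddCircle => p • x) μ μ)
    (h3 : MeasurePreserving (fun x : UnitAddCircle => q • x) μ μ) : ∫ x, f x ∂μ = ∫ x, f x := by
  classical
  have h4 := w_int hc hs μ
  have hp0 : (p : ℤ) ≠ 0 := by exact_mod_cast (by omega : p ≠ 0)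
  have hq0 : (q : ℤ) ≠ 0 := by exact_mod_cast (by omega : q ≠ 0)
  have h5 : ∑' n : ℤ, (if n ≠ 0 then fc f n * hh μ n else 0) = 0 := by
    refine hPART ℤ (Cl p q) ⟨cl_refl, cl_symm, cl_trans⟩ _ ?_ (fun i => ?_)
    · refine Summable.of_norm_bounded hs.norm fun n => ?_
      split_ifs
      · rw [norm_mul]
        exact mul_le_of_le_one_right (norm_nonneg _) (norm_hh μ n)
      · rw [norm_zero]; exact norm_nonneg _
    · by_cases hi : i = 0
      · subst hi
        have e : ∀ j : ℤ, Set.indicator {j : ℤ | Cl p q j 0}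
            (fun n : ℤ => if n ≠ 0 then fc f n * hh μ n else 0) j = 0 := by
          intro j
          by_cases hj : j ∈ {j : ℤ | Cl p q j 0}
          · rw [Set.indicator_of_mem hj]
            obtain ⟨a, b, c, d, e⟩ := hj
            have : j = 0 := by
              rw [zero_mul, zero_mul] at e
              rcases mul_eq_zero.1 e with h | h
              · rcases mul_eq_zero.1 h with h | h
                · exact h
                · exact absurd h (pow_ne_zero _ hp0)
              · exact absurd h (pow_ne_zero _ hq0)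
            simp [this]
          · rw [Set.indicator_of_notMem hj]
        simp_rw [e]
        exact tsum_zero
      · have e : ∀ j : ℤ, Set.indicator {j : ℤ | Cl p q j i}
            (fun n : ℤ => if n ≠ 0 then fc f n * hh μ n else 0) j =
            Set.indicator {j : ℤ | Cl p q j i} (fc f) j * hh μ i := by
          intro j
          by_cases hj : j ∈ {j : ℤ | Cl p q j i}
          · rw [Set.indicator_of_mem hj, Set.indicator_of_mem hj]
            have hj0 : j ≠ 0 := by
              rintro rfl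
              obtain ⟨a, b, c, d, e⟩ := hj
              rw [zero_mul, zero_mul] at e
              rcases mul_eq_zero.1 e.symm with h | h
              · rcases mul_eq_zero.1 h with h | h
                · exact hi h
                · exact absurd h (pow_ne_zero _ hp0)
              · exact absurd h (pow_ne_zero _ hq0)
            rw [if_pos hj0, hh_cl h2 h3 hj]
          · rw [Set.indicator_of_notMem hj, Set.indicator_of_notMem hj, zero_mul]
        simp_rw [e]
        rw [tsum_mul_right]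
        have := hA i hi
        unfold AC at this
        rw [this, zero_mul]
  rw [split0 _ (summ hs _), h5, hh_zero, mul_one, add_zero, ← w_vol] at h4
  exact_mod_cast h4

lemma dirac_inv (k : ℕ) : MeasurePreserving (fun x : UnitAddCircle => k • x)
    (Measure.dirac (0 : UnitAddCircle)) (Measure.dirac (0 : UnitAddCircle)) := by
  refine ⟨meas_nsmul k, ?_⟩
  rw [Measure.map_dirac' (meas_nsmul k), smul_zero]

theorem w_zero2 (hPART : S_PART) (hp : 2 ≤ p) (hq : 2 ≤ q) (hc : Continuous f)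
    (hs : Summable (fc f)) (hA : ∀ n : ℤ, n ≠ 0 → AC p q f n = 0) : f 0 = ∫ x, f x := by
  rw [← w_triv2 hPART hp hq hc hs hA (Measure.dirac (0 : UnitAddCircle)) (dirac_inv p) (dirac_inv q),
    integral_dirac]

/-- the value at `0+` of a trivial function of bounded variation -/
theorem bv_lim2 (hSWV : S_SWV) (hRESM : S_RESM) (hTRIV : S_TRIV) (hSMS : S_SMS) (hPART : S_PART)
    (hREIX : S_REIX) (hFOUR : S_FOUR) (hp : 2 ≤ p) (hq : 2 ≤ q) (D : Dt f)
    (hA : ∀ n : ℤ, n ≠ 0 → AC p q f n = 0)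
    (L : ℝ) (hL : Tendsto (fun t : ℝ => f (t : UnitAddCircle)) (𝓝[>] 0) (𝓝 L)) :
    L = ∫ x, f x := by
  have := D.f1
  have := D.f2
  have h0 := triv_gf hSWV hRESM hTRIV hSMS hPART hREIX hFOUR hp hq D hA
    (Measure.dirac (0 : UnitAddCircle)) (dirac_inv p) (dirac_inv q)
  have hg : ∀ t : ℝ, gf (Measure.dirac (0 : UnitAddCircle)) t = sw (-t) := by
    intro t
    unfold gf law
    rw [Measure.map_dirac' meas_rep, integral_dirac]
    have : rep (0 : UnitAddCircle) = 0 := by
      have h := rep_coe 0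
      rw [Int.fract_zero] at h
      exact h
    rw [this, zero_sub]
    rfl
  simp_rw [hg] at h0
  have hrc : ∀ (θ : Measure ℝ) [IsFiniteMeasure θ],
      Tendsto (fun y : ℝ => ∫ t, sw (y - t) ∂θ) (𝓝[>] 0) (𝓝 (∫ t, sw (-t) ∂θ)) := by
    intro θ _
    refine tendsto_integral_filter_of_dominated_convergence (fun _ => 1 / 2)
      (Eventually.of_forall fun y => (meas_sw.comp (measurable_const.sub measurable_id)).aestronglyMeasurable)
      (Eventually.of_forall fun y => Eventually.of_forall fun t => by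
        rw [Real.norm_eq_abs]; exact abs_sw _) (integrable_const _)
      (Eventually.of_forall fun t => ?_)
    have h1 := rc_sw (-t)
    have h2 : Tendsto (fun y : ℝ => y - t) (𝓝[>] 0) (𝓝[≥] (-t)) := by
      refine tendsto_nhdsWithin_iff.2 ⟨?_, ?_⟩
      · have h3 : Tendsto (fun y : ℝ => y - t) (𝓝 0) (𝓝 (0 - t)) :=
          (continuous_id.sub continuous_const).tendsto 0
        rw [zero_sub] at h3
        exact h3.mono_left nhdsWithin_le_nhds
      · filter_upwards [self_mem_nhdsWithin] with y hy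
        have hy2 : (0 : ℝ) < y := hy
        show -t ≤ y - t
        linarith
    exact h1.tendsto.comp h2
  have hF : Tendsto (fun y : ℝ => D.c - (∫ t, sw (y - t) ∂D.θ₁) + ∫ t, sw (y - t) ∂D.θ₂) (𝓝[>] 0)
      (𝓝 (D.c - (∫ t, sw (-t) ∂D.θ₁) + ∫ t, sw (-t) ∂D.θ₂)) :=
    (tendsto_const_nhds.sub (hrc D.θ₁)).add (hrc D.θ₂)
  rw [h0, sub_add_cancel] at hF
  rw [dt_c hFOUR D]
  have hfreq : ∃ᶠ y : ℝ in 𝓝[>] (0 : ℝ), f ((y : ℝ) : UnitAddCircle) =
      D.c - (∫ t, sw (y - t) ∂D.θ₁) + ∫ t, sw (y - t) ∂D.θ₂ := by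
    intro hev
    rw [eventually_nhdsWithin_iff, Metric.eventually_nhds_iff] at hev
    obtain ⟨ε, hε, hb⟩ := hev
    have hsub : Set.Ioo (0 : ℝ) (min ε 1) ⊆ {x : ℝ | 0 ≤ x ∧ x < 1 ∧ f (x : UnitAddCircle) ≠
      D.c - (∫ t, sw (x - t) ∂D.θ₁) + ∫ t, sw (x - t) ∂D.θ₂} := by
      intro x hx
      have h1 := lt_min_iff.1 hx.2
      refine ⟨hx.1.le, h1.2, hb ?_ hx.1⟩
      rw [Real.dist_eq, sub_zero, abs_of_pos hx.1]
      exact h1.1
    have hc := D.hE.mono hsub
    have hnc : ¬ (Set.Ioo (0 : ℝ) (min ε 1)).Countable := by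
      rw [← Cardinal.le_aleph0_iff_set_countable, not_le]
      rw [Cardinal.mk_Ioo_real (lt_min hε one_pos)]
      exact Cardinal.aleph0_lt_continuum
    exact hnc hc
  by_contra hne
  have h1 : ∀ᶠ y : ℝ in 𝓝[>] (0 : ℝ), f ((y : ℝ) : UnitAddCircle) ≠
      D.c - (∫ t, sw (y - t) ∂D.θ₁) + ∫ t, sw (y - t) ∂D.θ₂ := by
    filter_upwards [(hL.sub hF).eventually_ne (sub_ne_zero.2 hne)] with y hy
    exact sub_ne_zero.1 hy
  exact hfreq h1

/-- symmetry of all the invariant measures is equivalent to the conjecture -/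
theorem core_sym2 (hODD : S_ODD) (hTW : S_TW) (hp : 2 ≤ p) (hq : 2 ≤ q)
    (H : ∀ μ : Measure UnitAddCircle, Joint p q μ → μ.map (fun x => -x) = μ) :
    ∀ μ : Measure UnitAddCircle, Joint p q μ → μ = (volume : Measure UnitAddCircle) := by
  classical
  refine of_first p q fun μ hμ => ?_
  obtain ⟨r, m, hr, hrB, hr2, hodd, hsm⟩ := hODD p q hp hq
  have hfr : Fact r.Prime := ⟨hr⟩
  have hm1 : 1 ≤ m := by
    rcases Nat.eq_zero_or_pos m with h | h
    · subst h
      exact absurd hodd (by decide)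
    · exact h
  have hps : p ∈ Sm (p * q) := ⟨by omega, fun l _ h => h.trans (dvd_mul_right _ _)⟩
  have hqs : q ∈ Sm (p * q) := ⟨by omega, fun l _ h => h.trans (dvd_mul_left _ _)⟩
  obtain ⟨w, hw⟩ := hTW p q r m hr hm1 (hsm p hps) (hsm q hqs)
    (fun x => if x ^ m = 1 then 1 else 0) (fun g x hg => by
      rw [mul_pow, hg, one_mul])
  obtain ⟨ν, hν, hk⟩ := hw μ ((inv_iff p q μ).2 hμ)
  have hs : ∀ a, hc (ν a) (-1) = hc (ν a) 1 := by
    intro a
    have h1 := (inv_iff p q (ν a)).1 (hν a)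
    have := h1.1
    exact (sym_fourier (ν a)).1 (H (ν a) h1) 1
  have h1 := hk 1
  have h2 := hk (-1)
  simp_rw [hs] at h2
  rw [h1] at h2
  have e1 : (((1 : ℤ) : ZMod r) ^ m = 1) := by simp
  have e2 : ¬ (((-1 : ℤ) : ZMod r) ^ m = 1) := by
    push_cast
    rw [hodd.neg_one_pow]
    have : Fact (2 < r) := ⟨hr2⟩
    exact ZMod.neg_one_ne_one
  simp only [if_pos e1, if_neg e2, one_mul, zero_mul] at h2
  exact h2

end Pool.Agent.U798.GP
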