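import Pool.Agent.U798.GP.G4
import Pool.Agent.U139.BV.REP
import Pool.Agent.U141.BV.CONV
import Pool.Agent.U660.BV.TRIV
import Pool.Agent.U635.BV.FOUR
import Pool.Agent.U408.BV.LIM
import Pool.Agent.U429.BV.ARCS

set_option autoImplicit false

open MeasureTheory Filter Topology
open Pool.Agent.U798.BV

namespace Pool.Agent.U798.GP

/-- all the open packages together -/
structure Pk : Prop where
  chev : S_CHEV
  odd : S_ODD
  tw : S_TW
  twl : S_CHEV → S_ODD → S_TW → S_TWL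
  sms : S_SMS
  resm : S_RESM
  swv : S_SWV
  dav2 : S_DAV2
  siew : S_SIEW
  part : S_PART
  reix : S_REIX

end Pool.Agent.U798.GP

namespace Pool.Agent.U798.GP.Fin

/-- Furstenberg's conjecture for `p, q` -/
def Conj (p q : ℕ) : Prop :=
  ∀ μ : Measure (AddCircle (1 : ℝ)), Inv p q μ → μ = MeasureTheory.volume

/-- all measures in question give `f` the same integral as Lebesgue measure -/
def Right (p q : ℕ) (f : AddCircle (1 : ℝ) → ℝ) : Prop :=
  ∀ μ : Measure (AddCircle (1 : ℝ)), Inv p q μ → ∫ x, f x ∂μ = ∫ x, f x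

/-- class sum -/
noncomputable def A (p q : ℕ) (f : AddCircle (1 : ℝ) → ℝ) (n : ℤ) : ℂ :=
  ∑' m : ℤ, Set.indicator {m : ℤ | Cl p q m n} (fun m => fourierCoeff (fun x => ((f x : ℝ) : ℂ)) m) m

/-- trivial functions -/
def Triv (p q : ℕ) (f : AddCircle (1 : ℝ) → ℝ) : Prop := ∀ n : ℤ, n ≠ 0 → A p q f n = 0

/-- functions of bounded variation on the circle -/
def BVF (f : AddCircle (1 : ℝ) → ℝ) : Prop :=
  BoundedVariationOn (fun t : ℝ => f (t : AddCircle (1 : ℝ))) (Set.Icc 0 1)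

/-- continuous functions with an absolutely convergent Fourier series -/
def ACF (f : AddCircle (1 : ℝ) → ℝ) : Prop :=
  Continuous f ∧ Summable fun n : ℤ => fourierCoeff (fun x => ((f x : ℝ) : ℂ)) n

/-- arcs -/
def arc (α β : ℝ) : Set (AddCircle (1 : ℝ)) := (fun t : ℝ => (t : AddCircle (1 : ℝ))) '' Set.Ico α β

lemma conj_right (p q : ℕ) (f : AddCircle (1 : ℝ) → ℝ) (h : Conj p q) : Right p q f := by
  intro μ hμ
  rw [h μ hμ]

theorem triv_case (K : Pk) {p q : ℕ} (hp : 2 ≤ p) (hq : 2 ≤ q)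
    (f : AddCircle (1 : ℝ) → ℝ) (hf : BVF f ∨ ACF f) (ht : Triv p q f) : Right p q f := by
  intro μ hμ
  have hJ := (inv_iff p q μ).1 hμ
  have h1 := hJ.1
  have h2 := hJ.2.1
  rcases hf with hf | hf
  · obtain ⟨D⟩ := exists_dt Pool.Agent.U139.BV.t_REP f hf
    have h3 := triv_gf K.swv K.resm Pool.Agent.U660.BV.t_TRIV K.sms K.part K.reix
      Pool.Agent.U635.BV.t_FOUR hp hq D ht μ hJ.2.2.1 hJ.2.2.2
    rw [dt_int D μ, h3, dt_c Pool.Agent.U635.BV.t_FOUR D]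
    ring
  · exact w_triv2 K.part hp hq hf.1 hf.2 ht μ hJ.2.2.1 hJ.2.2.2

theorem dec_case (K : Pk) {p q : ℕ} (hp : 2 ≤ p) (hq : 2 ≤ q)
    (f : AddCircle (1 : ℝ) → ℝ) (hf : BVF f ∨ ACF f) (ht : ¬ Triv p q f) :
    Right p q f ↔ Conj p q := by
  refine ⟨fun h => ?_, conj_right p q f⟩
  unfold Triv at ht
  push Not at ht
  obtain ⟨n, hn, hA⟩ := ht
  have H : ∀ μ : Measure UnitAddCircle, Pool.Agent.U798.FA.Joint p q μ →
      ∫ x, f x ∂μ = ∫ x, f x := fun μ hμ => h μ ((inv_iff p q μ).2 hμ)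
  have hTWL := K.twl K.chev K.odd K.tw
  intro μ hμ
  have hμ2 := (inv_iff p q μ).1 hμ
  rcases hf with hf | hf
  · obtain ⟨D⟩ := exists_dt Pool.Agent.U139.BV.t_REP f hf
    exact bv_dec2 K.dav2 K.sms hTWL Pool.Agent.U635.BV.t_FOUR K.reix hp hq D n hn hA H μ hμ2
  · exact w_dec2 hTWL K.siew K.reix hp hq hf.1 hf.2 n hn hA H μ hμ2

theorem crit (K : Pk) {p q : ℕ} (hp : 2 ≤ p) (hq : 2 ≤ q)
    (f : AddCircle (1 : ℝ) → ℝ) (hf : BVF f ∨ ACF f) (L : ℝ)
    (hL : Tendsto (fun t : ℝ => f (t : AddCircle (1 : ℝ))) (𝓝[>] 0) (𝓝 L)) (hne : L ≠ ∫ x, f x) :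
    ¬ Triv p q f := by
  intro ht
  apply hne
  rcases hf with hf | hf
  · obtain ⟨D⟩ := exists_dt Pool.Agent.U139.BV.t_REP f hf
    exact bv_lim2 K.swv K.resm Pool.Agent.U660.BV.t_TRIV K.sms K.part K.reix
      Pool.Agent.U635.BV.t_FOUR hp hq D ht L hL
  · have h0 := w_zero2 K.part hp hq hf.1 hf.2 ht
    have h1 : Tendsto (fun t : ℝ => f (t : AddCircle (1 : ℝ))) (𝓝[>] 0) (𝓝 (f 0)) := by
      have h2 : Continuous fun t : ℝ => f (t : AddCircle (1 : ℝ)) :=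
        hf.1.comp (AddCircle.continuous_mk' (1 : ℝ))
      have h3 := h2.tendsto 0
      have h4 : ((0 : ℝ) : AddCircle (1 : ℝ)) = 0 := rfl
      rw [h4] at h3
      exact h3.mono_left nhdsWithin_le_nhds
    rw [← h0]
    exact tendsto_nhds_unique hL h1

theorem set_case (K : Pk) {p q : ℕ} (hp : 2 ≤ p) (hq : 2 ≤ q)
    (J : Set (AddCircle (1 : ℝ))) (hJm : MeasurableSet J) (hJ : BVF (J.indicator fun _ => (1 : ℝ)))
    (h0 : (volume : Measure (AddCircle (1 : ℝ))).real J ≠ 0)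
    (h1 : (volume : Measure (AddCircle (1 : ℝ))).real J ≠ 1) :
    ¬ Triv p q (J.indicator fun _ => (1 : ℝ)) ∧
    ((∀ μ : Measure (AddCircle (1 : ℝ)), Inv p q μ → μ.real J = (volume : Measure (AddCircle (1 : ℝ))).real J) ↔
      Conj p q) := by
  have hint : ∀ μ : Measure (AddCircle (1 : ℝ)), ∫ x, J.indicator (fun _ => (1 : ℝ)) x ∂μ = μ.real J := by
    intro μ
    rw [integral_indicator_const _ hJm, smul_eq_mul, mul_one]
  have hnt : ¬ Triv p q (J.indicator fun _ => (1 : ℝ)) := by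
    obtain ⟨ε, hε, hc⟩ := Pool.Agent.U408.BV.t_LIM
      (fun t : ℝ => J.indicator (fun _ => (1 : ℝ)) (t : AddCircle (1 : ℝ))) hJ (fun t => by
        by_cases h : (t : AddCircle (1 : ℝ)) ∈ J
        · right; exact Set.indicator_of_mem h _
        · left; exact Set.indicator_of_notMem h _)
    have hmem : Set.Ioo (0 : ℝ) ε ∈ 𝓝[>] (0 : ℝ) := Ioo_mem_nhdsGT hε
    rcases hc with hc | hc
    · refine crit K hp hq _ (Or.inl hJ) 0 ?_ (by rw [hint]; exact h0.symm)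
      refine tendsto_const_nhds.congr' ?_
      filter_upwards [hmem] with t ht
      exact (hc t ht).symm
    · refine crit K hp hq _ (Or.inl hJ) 1 ?_ (by rw [hint]; exact h1.symm)
      refine tendsto_const_nhds.congr' ?_
      filter_upwards [hmem] with t ht
      exact (hc t ht).symm
  refine ⟨hnt, ?_⟩
  rw [← dec_case K hp hq _ (Or.inl hJ) hnt]
  unfold Right
  simp_rw [hint]

theorem arcs_ok (n : ℕ) (α β : Fin n → ℝ) (h : ∀ i, 0 ≤ α i ∧ β i ≤ 1) :
    MeasurableSet (⋃ i, arc (α i) (β i)) ∧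
      BVF ((⋃ i, arc (α i) (β i)).indicator fun _ => (1 : ℝ)) := by
  refine ⟨MeasurableSet.iUnion fun i => Pool.Agent.U798.FA.meas_arc _ _ (h i).1 (h i).2, ?_⟩
  have h2 := Pool.Agent.U429.BV.t_ARCS n α β
  have e : (fun t : ℝ => (⋃ i, arc (α i) (β i)).indicator (fun _ => (1 : ℝ)) (t : AddCircle (1 : ℝ))) =
      fun t : ℝ => Set.indicator {t : ℝ | ∃ i, α i ≤ Int.fract t ∧ Int.fract t < β i}
        (fun _ => (1 : ℝ)) t := by
    funext t
    have hiff : (t : AddCircle (1 : ℝ)) ∈ (⋃ i, arc (α i) (β i)) ↔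
        t ∈ {t : ℝ | ∃ i, α i ≤ Int.fract t ∧ Int.fract t < β i} := by
      rw [Set.mem_iUnion]
      exact exists_congr fun i => Pool.Agent.U798.FA.coe_mem_arc (α i) (β i) t (h i).1 (h i).2
    by_cases hm : (t : AddCircle (1 : ℝ)) ∈ (⋃ i, arc (α i) (β i))
    · rw [Set.indicator_of_mem hm, Set.indicator_of_mem (hiff.1 hm)]
    · rw [Set.indicator_of_notMem hm, Set.indicator_of_notMem (fun hh => hm (hiff.2 hh))]
  unfold BVF
  rw [e]
  exact h2

theorem arc_case (K : Pk) {p q : ℕ} (hp : 2 ≤ p) (hq : 2 ≤ q) (α β : ℝ) (h0 : 0 ≤ α)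
    (h1 : α < β) (h2 : β ≤ 1) (hne : β - α ≠ 1) :
    (∀ μ : Measure (AddCircle (1 : ℝ)), Inv p q μ → μ.real (arc α β) = β - α) ↔ Conj p q := by
  have hv : (volume : Measure (AddCircle (1 : ℝ))).real (arc α β) = β - α :=
    Pool.Agent.U798.FA.vol_arc α β h0 h1.le h2
  have hU : (⋃ _ : Fin 1, arc α β) = arc α β := Set.iUnion_const _
  have ho := arcs_ok 1 (fun _ => α) (fun _ => β) (fun _ => ⟨h0, h2⟩)
  rw [hU] at ho
  have h := (set_case K hp hq (arc α β) ho.1 ho.2 (by rw [hv]; linarith) (by rw [hv]; exact hne)).2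
  rw [hv] at h
  exact h

theorem sym_case (K : Pk) {p q : ℕ} (hp : 2 ≤ p) (hq : 2 ≤ q) :
    (∀ μ : Measure (AddCircle (1 : ℝ)), Inv p q μ → μ.map (fun x => -x) = μ) ↔ Conj p q := by
  constructor
  · intro h μ hμ
    exact core_sym2 K.odd K.tw hp hq (fun ν hν => h ν ((inv_iff p q ν).2 hν)) μ
      ((inv_iff p q μ).1 hμ)
  · intro h μ hμ
    rw [h μ hμ]
    exact Measure.map_neg_eq_self (volume : Measure (AddCircle (1 : ℝ)))

end Pool.Agent.U798.GP.Fin
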