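import Pool.Agent.U798.GP.G5

set_option autoImplicit false

open MeasureTheory Filter Topology
open Pool.Agent.U798.BV Pool.Agent.U798.GP Pool.Agent.U798.GP.Fin

namespace Pool.Agent.U798.GP.Fin

/-- the final statement -/
def Main : Prop :=
    (∀ p q : ℕ, 2 ≤ p → 2 ≤ q →
      (∀ f : AddCircle (1 : ℝ) → ℝ, BVF f ∨ ACF f →
        (Triv p q f → Right p q f) ∧ (¬ Triv p q f → (Right p q f ↔ Conj p q)) ∧
        ∀ L : ℝ, Tendsto (fun t : ℝ => f (t : AddCircle (1 : ℝ))) (𝓝[>] 0) (𝓝 L) →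
          L ≠ ∫ x, f x → ¬ Triv p q f) ∧
      (∀ J : Set (AddCircle (1 : ℝ)), MeasurableSet J → BVF (J.indicator fun _ => (1 : ℝ)) →
        (volume : Measure (AddCircle (1 : ℝ))).real J ≠ 0 →
        (volume : Measure (AddCircle (1 : ℝ))).real J ≠ 1 →
        ((∀ μ : Measure (AddCircle (1 : ℝ)), Inv p q μ →
          μ.real J = (volume : Measure (AddCircle (1 : ℝ))).real J) ↔ Conj p q)) ∧
      (∀ (n : ℕ) (α β : Fin n → ℝ), (∀ i, 0 ≤ α i ∧ β i ≤ 1) →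
        MeasurableSet (⋃ i, arc (α i) (β i)) ∧
          BVF ((⋃ i, arc (α i) (β i)).indicator fun _ => (1 : ℝ))) ∧
      (∀ α β : ℝ, 0 ≤ α → α < β → β ≤ 1 → β - α ≠ 1 →
        ((∀ μ : Measure (AddCircle (1 : ℝ)), Inv p q μ → μ.real (arc α β) = β - α) ↔ Conj p q)) ∧
      ((∀ μ : Measure (AddCircle (1 : ℝ)), Inv p q μ → μ.map (fun x => -x) = μ) ↔ Conj p q)) ∧
    (∀ f : ℕ → ℕ → AddCircle (1 : ℝ) → ℝ,
      (∀ p q : ℕ, 2 ≤ p → 2 ≤ q → (BVF (f p q) ∨ ACF (f p q)) ∧ ¬ Triv p q (f p q)) →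
      ((∀ p q : ℕ, 2 ≤ p → 2 ≤ q → Irrational (Real.log (p : ℝ) / Real.log (q : ℝ)) →
        ∀ μ : Measure UnitAddCircle, IsProbabilityMeasure μ → NoAtoms μ →
          MeasurePreserving (fun x : UnitAddCircle => p • x) μ μ →
          MeasurePreserving (fun x : UnitAddCircle => q • x) μ μ →
          μ = (volume : Measure UnitAddCircle)) ↔
        ∀ p q : ℕ, 2 ≤ p → 2 ≤ q → Irrational (Real.log (p : ℝ) / Real.log (q : ℝ)) →
          Right p q (f p q)))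

theorem main_of (K : Pk) : Main := by
  refine ⟨fun p q hp hq => ⟨fun f hf => ⟨triv_case K hp hq f hf, dec_case K hp hq f hf,
    fun L hL hne => crit K hp hq f hf L hL hne⟩,
    fun J hJm hJ h0 h1 => (set_case K hp hq J hJm hJ h0 h1).2, fun n α β h => arcs_ok n α β h,
    fun α β h0 h1 h2 hne => arc_case K hp hq α β h0 h1 h2 hne, sym_case K hp hq⟩, fun f hf => ?_⟩
  constructor
  · intro h p q hp hq hi μ hμ
    rw [h p q hp hq hi μ hμ.1 ⟨hμ.2.1⟩ hμ.2.2.1 hμ.2.2.2]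
  · intro h p q hp hq hi μ m1 m2 m3 m4
    exact (dec_case K hp hq (f p q) (hf p q hp hq).1 (hf p q hp hq).2).1 (h p q hp hq hi) μ
      ⟨m1, fun x => m2.measure_singleton x, m3, m4⟩

end Pool.Agent.U798.GP.Fin
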